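import Pool.Agent.H97.Q2.Defs

/-!
# Subcubes, edges and faces of the hypercube
-/

open Finset

namespace Pool.Agent.H97.Q2

variable {d : ℕ}

lemma within_refl (c : Subcube d) : Within c c := fun _ _ => rfl

lemma Within.trans {a b c : Subcube d} (h : Within a b) (h' : Within b c) : Within a c := by
  intro i hi
  have := h' i hi
  rw [← this]
  exact h i (by rw [this]; exact hi)

/-- The direction of an edge. -/
lemma edge_dir (e : Edge d) : ∃ i, e.1 i = none ∧ ∀ l, e.1 l = none → l = i := by
  have h := e.2
  unfold dim at h
  rw [card_eq_one] at h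
  obtain ⟨i, hi⟩ := h
  refine ⟨i, ?_, fun l hl => ?_⟩
  · have : i ∈ ({i} : Finset (Fin d)) := mem_singleton_self i
    rw [← hi] at this
    simpa using this
  · have : l ∈ univ.filter fun i => e.1 i = none := by simpa using hl
    rw [hi] at this
    simpa using this

lemma edge_dir_unique (e : Edge d) {i l : Fin d} (hi : e.1 i = none) (hl : e.1 l = none) :
    l = i := by
  obtain ⟨a, _, h⟩ := edge_dir e
  rw [h i hi, h l hl]

lemma within_free {e : Edge d} {c : Subcube d} (h : Within e.1 c) {i : Fin d}
    (hi : e.1 i = none) : c i = none := by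
  by_contra h'
  exact h' ((h i h').symm.trans hi)

/-- The edges of the subcube `c` in direction `i`. -/
def dirEdges (c : Subcube d) (i : Fin d) : Finset (Edge d) :=
  univ.filter fun e => Within e.1 c ∧ e.1 i = none

/-- The edges of the subcube `c`. -/
def inEdges (c : Subcube d) : Finset (Edge d) := univ.filter fun e => Within e.1 c

/-- The free coordinates of the subcube `c`. -/
def free (c : Subcube d) : Finset (Fin d) := univ.filter fun i => c i = none

lemma card_free (c : Subcube d) : (free c).card = dim c := rfl

lemma mem_free {c : Subcube d} {i : Fin d} : i ∈ free c ↔ c i = none := by simp [free]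

lemma mem_dirEdges {c : Subcube d} {i : Fin d} {e : Edge d} :
    e ∈ dirEdges c i ↔ Within e.1 c ∧ e.1 i = none := by simp [dirEdges]

lemma mem_inEdges {c : Subcube d} {e : Edge d} : e ∈ inEdges c ↔ Within e.1 c := by
  simp [inEdges]

lemma card_dirEdges {c : Subcube d} {i : Fin d} (hi : c i = none) :
    (dirEdges c i).card = 2 ^ (dim c - 1) := by
  classical
  let T : Fin d → Finset (Option Bool) := fun l =>
    if l = i then {none} else if c l = none then {some true, some false} else {c l}
  have h1 : (dirEdges c i).map (Function.Embedding.subtype _) = Fintype.piFinset T := by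
    ext x
    simp only [mem_map, mem_dirEdges, Function.Embedding.subtype_apply, Fintype.mem_piFinset]
    constructor
    · rintro ⟨e, ⟨h, h'⟩, rfl⟩ l
      by_cases hl : l = i
      · subst hl; simp [T, h']
      · have hne : e.1 l ≠ none := fun h'' => hl (edge_dir_unique e h' h'')
        by_cases hc : c l = none
        · simp only [T, if_neg hl, if_pos hc, mem_insert, mem_singleton]
          rcases hv : e.1 l with _ | b
          · exact absurd hv hne
          · cases b <;> simp
        · simp only [T, if_neg hl, if_neg hc, mem_singleton]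
          exact h l hc
    · intro hx
      have hxi : x i = none := by simpa [T] using hx i
      have hxl : ∀ l, l ≠ i → x l ≠ none := by
        intro l hl h
        have := hx l
        by_cases hc : c l = none
        · simp [T, hl, hc, h] at this
        · simp only [T, if_neg hl, if_neg hc, mem_singleton, h] at this
          exact hc this.symm
      have hdim : dim x = 1 := by
        unfold dim
        rw [card_eq_one]
        refine ⟨i, ?_⟩
        ext l
        simp only [mem_filter, mem_univ, true_and, mem_singleton]
        constructor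
        · intro h; by_contra h'; exact hxl l h' h
        · rintro rfl; exact hxi
      refine ⟨⟨x, hdim⟩, ⟨?_, hxi⟩, rfl⟩
      intro l hl
      have hli : l ≠ i := by rintro rfl; exact hl hi
      simpa [T, hli, hl] using hx l
  have h2 := congrArg Finset.card h1
  rw [card_map, Fintype.card_piFinset] at h2
  rw [h2]
  have h3 : ∀ l, (T l).card = if l ∈ (free c).erase i then 2 else 1 := by
    intro l
    simp only [mem_erase, mem_free, T]
    by_cases hl : l = i
    · simp [hl]
    · by_cases hc : c l = none
      · simp [hl, hc]
      · simp [hl, hc]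
  rw [Finset.prod_congr rfl fun l _ => h3 l, Finset.prod_ite_mem, univ_inter, prod_const,
    card_erase_of_mem (mem_free.2 hi), card_free]

lemma inEdges_eq_biUnion (c : Subcube d) : inEdges c = (free c).biUnion (dirEdges c) := by
  ext e
  simp only [mem_inEdges, mem_biUnion, mem_dirEdges, mem_free]
  constructor
  · intro h
    obtain ⟨i, hi, _⟩ := edge_dir e
    exact ⟨i, within_free h hi, h, hi⟩
  · rintro ⟨i, _, h, _⟩; exact h

lemma disjoint_dirEdges (c : Subcube d) {i j : Fin d} (h : i ≠ j) :
    Disjoint (dirEdges c i) (dirEdges c j) := by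
  rw [Finset.disjoint_left]
  intro e he he'
  exact h (edge_dir_unique e (mem_dirEdges.1 he').2 (mem_dirEdges.1 he).2)

lemma card_inEdges (c : Subcube d) : (inEdges c).card = dim c * 2 ^ (dim c - 1) := by
  rw [inEdges_eq_biUnion, card_biUnion]
  · rw [Finset.sum_congr rfl fun i hi => card_dirEdges (mem_free.1 hi), sum_const, card_free,
      smul_eq_mul]
  · intro i _ j _ hij
    exact disjoint_dirEdges c hij

/-- The edges other than `e` of the two-dimensional subcube spanned by the edge `e` and the
direction `j`. -/
def triple (e : Edge d) (j : Fin d) : Finset (Edge d) :=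
  (inEdges (Function.update e.1 j none)).erase e

lemma within_update (e : Subcube d) (j : Fin d) : Within e (Function.update e j none) := by
  intro i hi
  by_cases h : i = j
  · subst h; simp at hi
  · simp [h]

lemma dim_update_none {c : Subcube d} {j : Fin d} (hj : c j ≠ none) :
    dim (Function.update c j none) = dim c + 1 := by
  have h : free (Function.update c j none) = insert j (free c) := by
    ext l
    simp only [mem_free, mem_insert]
    by_cases hl : l = j
    · subst hl; simp
    · simp [hl]
  rw [← card_free, h, card_insert_of_notMem (by rw [mem_free]; exact hj), card_free]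

lemma card_triple {e : Edge d} {j : Fin d} (hj : e.1 j ≠ none) : (triple e j).card = 3 := by
  unfold triple
  rw [card_erase_of_mem (mem_inEdges.2 (within_update _ _)), card_inEdges, dim_update_none hj, e.2]
  rfl

lemma card_triple_le (e : Edge d) (j : Fin d) : (triple e j).card ≤ 3 := by
  by_cases hj : e.1 j = none
  · unfold triple
    rw [card_erase_of_mem (mem_inEdges.2 (within_update _ _)), card_inEdges]
    have : Function.update e.1 j none = e.1 := by
      rw [← hj, Function.update_eq_self]
    rw [this, e.2]
    simp
  · rw [card_triple hj]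

lemma mem_triple {e e' : Edge d} {j : Fin d} :
    e' ∈ triple e j ↔ e' ≠ e ∧ Within e'.1 (Function.update e.1 j none) := by
  simp [triple, mem_inEdges]

/-- A two-dimensional subcube containing the edge `e` is spanned by `e` and a direction. -/
lemma exists_dir {c : Subcube d} (hc : dim c = 2) {e : Edge d} (h : Within e.1 c) :
    ∃ j, e.1 j ≠ none ∧ c = Function.update e.1 j none := by
  obtain ⟨i, hi, hi'⟩ := edge_dir e
  have hci : c i = none := within_free h hi
  have hc' : (free c).card = 2 := hc
  have h1 : ((free c).erase i).card = 1 := by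
    rw [card_erase_of_mem (mem_free.2 hci), hc']
  obtain ⟨j, hj⟩ := card_eq_one.1 h1
  have hj' : j ∈ (free c).erase i := by rw [hj]; exact mem_singleton_self j
  rw [mem_erase, mem_free] at hj'
  refine ⟨j, fun h' => hj'.1 (hi' j h'), ?_⟩
  funext l
  by_cases hl : l = j
  · subst hl; simp [hj'.2]
  · rw [Function.update_of_ne hl]
    by_cases hcl : c l = none
    · have : l = i := by
        by_contra h''
        have : l ∈ (free c).erase i := by rw [mem_erase, mem_free]; exact ⟨h'', hcl⟩
        rw [hj] at this
        exact hl (mem_singleton.1 this)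
      rw [this, hi, hci]
    · exact (h l hcl).symm

lemma exists_edge {c : Subcube d} (hc : dim c = 2) : ∃ e : Edge d, Within e.1 c := by
  have h : (inEdges c).card = 4 := by rw [card_inEdges, hc]; rfl
  have h' : (inEdges c).Nonempty := by rw [← card_pos, h]; norm_num
  obtain ⟨e, he⟩ := h'
  exact ⟨e, mem_inEdges.1 he⟩

/-! ### The process -/

lemma q2Free_empty : Q2Free (∅ : Finset (Edge d)) := by
  intro c hc
  obtain ⟨e, he⟩ := exists_edge hc
  exact ⟨e, he, by simp⟩

lemma graphAt_free (σ : Fin (numEdges d) ≃ Edge d) (m : ℕ) : Q2Free (graphAt σ m) := by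
  induction m with
  | zero => exact q2Free_empty
  | succ m ih =>
    rw [graphAt]
    split_ifs with h h'
    · exact h'
    · exact ih
    · exact ih

lemma graphAt_subset_succ (σ : Fin (numEdges d) ≃ Edge d) (m : ℕ) :
    graphAt σ m ⊆ graphAt σ (m + 1) := by
  conv_rhs => rw [graphAt]
  split_ifs with h h'
  · exact subset_insert _ _
  · exact subset_rfl
  · exact subset_rfl

lemma graphAt_mono (σ : Fin (numEdges d) ≃ Edge d) {m n : ℕ} (h : m ≤ n) :
    graphAt σ m ⊆ graphAt σ n := by
  induction h with
  | refl => exact subset_rfl
  | step _ ih => exact ih.trans (graphAt_subset_succ σ _)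

lemma pos_of_mem_graphAt {σ : Fin (numEdges d) ≃ Edge d} {m : ℕ} {e : Edge d}
    (h : e ∈ graphAt σ m) : ((σ.symm e : Fin _) : ℕ) < m := by
  induction m with
  | zero => simp [graphAt] at h
  | succ m ih =>
    rw [graphAt] at h
    split_ifs at h with h1 h2
    · rw [mem_insert] at h
      rcases h with h | h
      · rw [h]; simp
      · exact (ih h).trans (Nat.lt_succ_self m)
    · exact (ih h).trans (Nat.lt_succ_self m)
    · exact (ih h).trans (Nat.lt_succ_self m)

lemma finalGraph_free (σ : Fin (numEdges d) ≃ Edge d) : Q2Free (finalGraph σ) :=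
  graphAt_free σ _

/-- An edge is rejected only if it closes a two-dimensional subcube whose other edges were
accepted before. -/
lemma exists_of_notMem_final {σ : Fin (numEdges d) ≃ Edge d} {e : Edge d}
    (h : e ∉ finalGraph σ) :
    ∃ j, e.1 j ≠ none ∧ ∀ e' ∈ triple e j, e' ∈ finalGraph σ ∧ σ.symm e' < σ.symm e := by
  set p : ℕ := ((σ.symm e : Fin _) : ℕ) with hp
  have hpn : p < numEdges d := (σ.symm e).2
  have hσ : σ ⟨p, hpn⟩ = e := by
    have : (⟨p, hpn⟩ : Fin (numEdges d)) = σ.symm e := by ext; rfl
    rw [this, Equiv.apply_symm_apply]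
  have h1 : ¬ Q2Free (insert e (graphAt σ p)) := by
    intro hfree
    apply h
    have : e ∈ graphAt σ (p + 1) := by
      rw [graphAt, dif_pos hpn, hσ, if_pos hfree]
      exact mem_insert_self _ _
    exact graphAt_mono σ hpn this
  unfold Q2Free at h1
  push Not at h1
  obtain ⟨c, hc, hc'⟩ := h1
  obtain ⟨e₁, he₁, he₁'⟩ := graphAt_free σ p c hc
  have : e₁ = e := by
    have := hc' e₁ he₁
    rw [mem_insert] at this
    exact this.resolve_right he₁'
  subst this
  obtain ⟨j, hj, rfl⟩ := exists_dir hc he₁
  refine ⟨j, hj, fun e' he' => ?_⟩
  rw [mem_triple] at he'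
  have h2 := hc' e' he'.2
  rw [mem_insert] at h2
  have h3 := h2.resolve_left he'.1
  exact ⟨graphAt_mono σ hpn.le h3, Fin.lt_def.2 (pos_of_mem_graphAt h3)⟩

end Pool.Agent.H97.Q2
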