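import Mathlib

/-!
# The random greedy square-free process on the hypercube: definitions
-/

namespace Pool.Agent.H97.Q2

/-- A subcube of the `d`-dimensional hypercube `{0,1}^d`: the coordinates `i` with `c i = some b` are
fixed to the value `b`, the coordinates with `c i = none` are free. -/
abbrev Subcube (d : ℕ) : Type := Fin d → Option Bool

/-- The dimension of a subcube: its number of free coordinates. The subcubes of dimension `k` are
the copies of `Q_k` in `Q_d`. -/
def dim {d : ℕ} (c : Subcube d) : ℕ := (Finset.univ.filter fun i => c i = none).card

/-- The subcube `b` is contained in the subcube `c`: it agrees with `c` wherever `c` is fixed. -/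
def Within {d : ℕ} (b c : Subcube d) : Prop := ∀ i, c i ≠ none → b i = c i

instance {d : ℕ} (b c : Subcube d) : Decidable (Within b c) := by
  unfold Within; infer_instance

/-- The edges of the hypercube `Q_d` are its one-dimensional subcubes. -/
abbrev Edge (d : ℕ) : Type := {e : Subcube d // dim e = 1}

/-- A set of edges is `Q_2`-free if every two-dimensional subcube has an edge outside the set. -/
def Q2Free {d : ℕ} (G : Finset (Edge d)) : Prop :=
  ∀ c : Subcube d, dim c = 2 → ∃ e : Edge d, Within e.1 c ∧ e ∉ G

/-- The number of edges of `Q_d`. -/
abbrev numEdges (d : ℕ) : ℕ := Fintype.card (Edge d)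

open Classical in
/-- The graph of the `Q_2`-free process, run along the ordering `σ` of the edges, after the first
`m` edges have been examined: an edge is added if and only if this keeps the graph `Q_2`-free. -/
noncomputable def graphAt {d : ℕ} (σ : Fin (numEdges d) ≃ Edge d) : ℕ → Finset (Edge d)
  | 0 => ∅
  | m + 1 =>
    if h : m < numEdges d then
      (if Q2Free (insert (σ ⟨m, h⟩) (graphAt σ m)) then insert (σ ⟨m, h⟩) (graphAt σ m)
        else graphAt σ m)
    else graphAt σ m

/-- The final graph `G_M` of the `Q_2`-free process run along the ordering `σ`. -/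
noncomputable def finalGraph {d : ℕ} (σ : Fin (numEdges d) ≃ Edge d) : Finset (Edge d) :=
  graphAt σ (numEdges d)

/-- The number of `k`-dimensional subcubes none of whose edges belongs to `G`. -/
def emptyCopies {d : ℕ} (k : ℕ) (G : Finset (Edge d)) : ℕ :=
  (Finset.univ.filter fun c : Subcube d => dim c = k ∧ ∀ e : Edge d, Within e.1 c → e ∉ G).card

/-- `E[N_k(d)]`: the average, over all orderings `σ` of the edges of `Q_d`, of the number of
empty copies of `Q_k` in the final graph of the `Q_2`-free process run along `σ`. -/
noncomputable def expectedEmpty (d k : ℕ) : ℝ :=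
  (∑ σ : Fin (numEdges d) ≃ Edge d, (emptyCopies k (finalGraph σ) : ℝ)) /
    (Fintype.card (Fin (numEdges d) ≃ Edge d) : ℝ)

end Pool.Agent.H97.Q2
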