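import Pool.Agent.H97.Q2.Mixture

/-!
# A Harris inequality and a count of proper colourings
-/

open Finset

namespace Pool.Agent.H97.Q2

variable {α : Type*} [Fintype α] [DecidableEq α]

lemma wt_mul_wt (t : ℝ) (a b : Finset α) : wt t a * wt t b = wt t (a ∩ b) * wt t (a ∪ b) := by
  unfold wt
  have h := card_union_add_card_inter a b
  have h1 := card_le_univ a
  have h2 := card_le_univ b
  have h3 := card_le_univ (a ∩ b)
  have h4 := card_le_univ (a ∪ b)
  calc t ^ a.card * (1 - t) ^ (Fintype.card α - a.card) *
        (t ^ b.card * (1 - t) ^ (Fintype.card α - b.card))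
      = t ^ (a.card + b.card) *
        (1 - t) ^ ((Fintype.card α - a.card) + (Fintype.card α - b.card)) := by
        rw [pow_add, pow_add]; ring
    _ = t ^ ((a ∩ b).card + (a ∪ b).card) *
        (1 - t) ^ ((Fintype.card α - (a ∩ b).card) + (Fintype.card α - (a ∪ b).card)) := by
        congr 2 <;> omega
    _ = _ := by rw [pow_add, pow_add]; ring

/-- The probability that a `t`-random set contains `T` and contains none of the sets `B i`. -/
theorem harris_lower {t : ℝ} (h0 : 0 < t) (h1 : t ≤ 1) (T : Finset α) {ι : Type*} [DecidableEq ι]
    (I : Finset ι) (B : ι → Finset α) :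
    t ^ T.card * ∏ i ∈ I, (1 - t ^ (B i \ T).card) ≤
      ∑ S : Finset α, wt t S * (if T ⊆ S ∧ ∀ i ∈ I, ¬ B i ⊆ S then 1 else 0) := by
  induction I using Finset.induction_on with
  | empty => simp only [prod_empty, mul_one, notMem_empty, false_imp_iff, implies_true, and_true]
             rw [sum_wt_subset]
  | insert i I hi ih =>
    set μ : Finset α → ℝ := fun S => wt t S * (if T ⊆ S then 1 else 0) with hμ
    set f : Finset α → ℝ := fun S => if ∀ i ∈ I, ¬ B i ⊆ S then 1 else 0 with hf
    set g : Finset α → ℝ := fun S => if ¬ B i ⊆ S then 1 else 0 with hg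
    have hfkg : (∑ S : Finset α, μ S * f S) * ∑ S : Finset α, μ S * g S ≤
        (∑ S : Finset α, μ S) * ∑ S : Finset α, μ S * (f S * g S) := by
      refine fkg (α := (Finset α)ᵒᵈ) (μ := μ) (f := f) (g := g) ?_ ?_ ?_ ?_ ?_ ?_
      · intro S; exact mul_nonneg (wt_nonneg h0.le h1 _) (by positivity)
      · intro S; simp only [hf]; positivity
      · intro S; simp only [hg]; positivity
      · intro S S' hS
        have hS' : OrderDual.ofDual S' ⊆ OrderDual.ofDual S := hS
        simp only [hf]
        by_cases h : ∀ i ∈ I, ¬ B i ⊆ S
        · rw [if_pos h, if_pos]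
          exact fun i hi hsub => h i hi (hsub.trans hS')
        · rw [if_neg h]; positivity
      · intro S S' hS
        have hS' : OrderDual.ofDual S' ⊆ OrderDual.ofDual S := hS
        simp only [hg]
        by_cases h : ¬ B i ⊆ S
        · rw [if_pos h, if_pos]
          exact fun hsub => h (hsub.trans hS')
        · rw [if_neg h]; positivity
      · intro S S'
        have e1 : μ (S ⊓ S' : (Finset α)ᵒᵈ) = wt t (OrderDual.ofDual S ∪ OrderDual.ofDual S') *
            (if T ⊆ OrderDual.ofDual S ∪ OrderDual.ofDual S' then 1 else 0) := rfl
        have e2 : μ (S ⊔ S' : (Finset α)ᵒᵈ) = wt t (OrderDual.ofDual S ∩ OrderDual.ofDual S') *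
            (if T ⊆ OrderDual.ofDual S ∩ OrderDual.ofDual S' then 1 else 0) := rfl
        have e3 : μ S = wt t (OrderDual.ofDual S) * (if T ⊆ OrderDual.ofDual S then 1 else 0) := rfl
        have e4 : μ S' = wt t (OrderDual.ofDual S') *
            (if T ⊆ OrderDual.ofDual S' then 1 else 0) := rfl
        rw [e1, e2, e3, e4]
        by_cases hS : T ⊆ OrderDual.ofDual S
        · by_cases hS' : T ⊆ OrderDual.ofDual S'
          · rw [if_pos hS, if_pos hS', if_pos (hS.trans subset_union_left),
              if_pos (subset_inter hS hS')]
            have := wt_mul_wt t (OrderDual.ofDual S) (OrderDual.ofDual S')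
            nlinarith
          · rw [if_neg hS', mul_zero, mul_zero]
            exact mul_nonneg (mul_nonneg (wt_nonneg h0.le h1 _) (by positivity))
              (mul_nonneg (wt_nonneg h0.le h1 _) (by positivity))
        · rw [if_neg hS, mul_zero, zero_mul]
          exact mul_nonneg (mul_nonneg (wt_nonneg h0.le h1 _) (by positivity))
              (mul_nonneg (wt_nonneg h0.le h1 _) (by positivity))
    have hμs : ∑ S : Finset α, μ S = t ^ T.card := sum_wt_subset t T
    have hμf : ∑ S : Finset α, μ S * f S =
        ∑ S : Finset α, wt t S * (if T ⊆ S ∧ ∀ i ∈ I, ¬ B i ⊆ S then 1 else 0) := by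
      refine Finset.sum_congr rfl fun S _ => ?_
      simp only [hμ, hf]
      by_cases hS : T ⊆ S <;> by_cases hS' : ∀ i ∈ I, ¬ B i ⊆ S <;> simp [hS]
    have hμg : ∑ S : Finset α, μ S * g S = t ^ T.card * (1 - t ^ (B i \ T).card) := by
      have h3 : ∀ S : Finset α, μ S * g S = wt t S * (if T ⊆ S then 1 else 0) -
          wt t S * (if T ∪ B i ⊆ S then 1 else 0) := by
        intro S
        simp only [hμ, hg, union_subset_iff]
        by_cases hS : T ⊆ S <;> by_cases hS' : B i ⊆ S <;> simp [hS, hS']
      rw [Finset.sum_congr rfl fun S _ => h3 S, sum_sub_distrib, sum_wt_subset, sum_wt_subset]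
      have h4 : (T ∪ B i).card = T.card + (B i \ T).card := by
        rw [← union_sdiff_self_eq_union, card_union_of_disjoint disjoint_sdiff]
      rw [h4, pow_add]; ring
    have hμfg : ∑ S : Finset α, μ S * (f S * g S) =
        ∑ S : Finset α, wt t S * (if T ⊆ S ∧ ∀ j ∈ insert i I, ¬ B j ⊆ S then 1 else 0) := by
      refine Finset.sum_congr rfl fun S _ => ?_
      simp only [hμ, hf, hg, forall_mem_insert]
      by_cases hS : T ⊆ S <;> by_cases hS' : ∀ i ∈ I, ¬ B i ⊆ S <;>
        by_cases hS'' : B i ⊆ S <;> simp [hS, hS', hS'']
    rw [hμs, hμf, hμg, hμfg] at hfkg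
    have hT : 0 < t ^ T.card := pow_pos h0 _
    rw [prod_insert hi]
    have hfac : 0 ≤ 1 - t ^ (B i \ T).card := by
      have : t ^ (B i \ T).card ≤ 1 := pow_le_one₀ h0.le h1
      linarith
    have h5 := mul_le_mul_of_nonneg_right ih (mul_nonneg hT.le hfac)
    have h6 := h5.trans hfkg
    have h7 : t ^ T.card * (t ^ T.card * ((1 - t ^ (B i \ T).card) *
        ∏ i ∈ I, (1 - t ^ (B i \ T).card))) ≤ t ^ T.card *
        ∑ S : Finset α, wt t S * (if T ⊆ S ∧ ∀ j ∈ insert i I, ¬ B j ⊆ S then 1 else 0) := by
      refine le_trans (le_of_eq ?_) h6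
      ring
    exact le_of_mul_le_mul_left h7 hT

/-- The number of proper colourings, by the greedy algorithm. -/
theorem card_proper_ge {V C : Type*} [Fintype V] [DecidableEq V] [DecidableEq C]
    (Q : Finset C) (R : V → V → Prop) [DecidableRel R] (hsymm : ∀ u v, R u v → R v u) (Δ : ℕ)
    (hΔ : ∀ v, (univ.filter fun u => R u v).card ≤ Δ) :
    (Q.card - Δ) ^ Fintype.card V ≤
      ((Fintype.piFinset fun _ : V => Q).filter fun J =>
        ∀ u v, u ≠ v → R u v → J u ≠ J v).card := by
  classical
  let N : Finset V → Finset (V → C) := fun S => (Fintype.piFinset fun _ : V => Q).filter fun J =>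
        ∀ u ∈ S, ∀ v ∈ S, u ≠ v → R u v → J u ≠ J v
  have hstep : ∀ S : Finset V, ∀ v ∉ S, (Q.card - Δ) * (N S).card ≤
      (N (insert v S)).card * Q.card := by
    intro S v hv
    let A : Finset ((V → C) × C) := (N S ×ˢ Q).filter fun p => Function.update p.1 v p.2 ∈
      N (insert v S)
    have hA1 : (Q.card - Δ) * (N S).card ≤ A.card := by
      have h1 : A.card = ∑ J ∈ N S, (A.filter fun p => p.1 = J).card := by
        refine card_eq_sum_card_fiberwise fun p hp => ?_
        have := (mem_filter.1 hp).1
        exact (mem_product.1 this).1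
      rw [h1, mul_comm, ← smul_eq_mul, ← sum_const]
      refine Finset.sum_le_sum fun J hJ => ?_
      let bad : Finset C := (univ.filter fun u => R u v).image J
      have hbad : bad.card ≤ Δ := card_image_le.trans (hΔ v)
      have h2 : (Q \ bad).card ≤ (A.filter fun p => p.1 = J).card := by
        refine card_le_card_of_injOn (fun a => (J, a)) ?_ ?_
        · intro a ha
          rw [mem_coe, mem_sdiff] at ha
          obtain ⟨haQ, hab⟩ := ha
          rw [mem_coe, mem_filter]
          refine ⟨?_, rfl⟩
          rw [mem_filter, mem_product]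
          refine ⟨⟨hJ, haQ⟩, ?_⟩
          rw [mem_filter] at hJ ⊢
          refine ⟨?_, ?_⟩
          · rw [Fintype.mem_piFinset] at hJ ⊢
            intro u
            by_cases hu : u = v
            · subst hu; simpa using haQ
            · simpa [hu] using hJ.1 u
          · intro u hu w hw huw hR
            have key : ∀ u', u' ∈ S → R u' v → J u' ≠ a := by
              intro u' _ hR' he
              apply hab
              rw [mem_image]
              exact ⟨u', by simpa using hR', he⟩
            rcases mem_insert.1 hu with rfl | hu'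
            · have hwS : w ∈ S := (mem_insert.1 hw).resolve_left (fun h => huw h.symm)
              simp only [Function.update_self]
              rw [Function.update_of_ne (fun h => huw h.symm)]
              exact fun he => key w hwS (hsymm _ _ hR) he.symm
            · rcases mem_insert.1 hw with rfl | hw'
              · simp only [Function.update_self]
                rw [Function.update_of_ne huw]
                exact key u hu' hR
              · have h3 : u ≠ v := by rintro rfl; exact hv hu'
                have h4 : w ≠ v := by rintro rfl; exact hv hw'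
                rw [Function.update_of_ne h3, Function.update_of_ne h4]
                exact hJ.2 u hu' w hw' huw hR
        · intro a _ b _ hab
          exact (Prod.mk.injEq _ _ _ _ ▸ hab).2
      refine le_trans ?_ h2
      have := le_card_sdiff bad Q
      omega
    have hA2 : A.card ≤ (N (insert v S)).card * Q.card := by
      rw [← card_product]
      refine card_le_card_of_injOn (fun p => (Function.update p.1 v p.2, p.1 v)) ?_ ?_
      · intro p hp
        have hp' := mem_filter.1 (mem_coe.1 hp)
        have hp'' := mem_product.1 hp'.1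
        rw [mem_coe, mem_product]
        refine ⟨hp'.2, ?_⟩
        have := (mem_filter.1 hp''.1).1
        rw [Fintype.mem_piFinset] at this
        exact this v
      · rintro ⟨J, a⟩ _ ⟨J', a'⟩ _ h
        simp only [Prod.mk.injEq] at h
        obtain ⟨h1, h2⟩ := h
        have ha : a = a' := by
          have := congrFun h1 v
          simpa using this
        have hJ : J = J' := by
          funext u
          by_cases hu : u = v
          · rw [hu, h2]
          · have := congrFun h1 u
            simpa [hu] using this
        rw [ha, hJ]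
    exact hA1.trans hA2
  have hall : ∀ S : Finset V, (Q.card - Δ) ^ S.card * Q.card ^ (Fintype.card V - S.card) ≤
      (N S).card := by
    intro S
    induction S using Finset.induction_on with
    | empty =>
      simp only [card_empty, pow_zero, one_mul, Nat.sub_zero]
      have : N ∅ = Fintype.piFinset fun _ : V => Q := by
        simp [N]
      rw [this, Fintype.card_piFinset, prod_const, card_univ]
    | insert v S hv ih =>
      have hle : (insert v S).card ≤ Fintype.card V := card_le_univ _
      rw [card_insert_of_notMem hv] at hle ⊢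
      rcases Nat.eq_zero_or_pos Q.card with hQ | hQ
      · rw [hQ]; simp
      · have h1 := hstep S v hv
        have h2 : (Q.card - Δ) ^ (S.card + 1) * Q.card ^ (Fintype.card V - (S.card + 1)) * Q.card ≤
            (N (insert v S)).card * Q.card := by
          refine le_trans ?_ h1
          calc (Q.card - Δ) ^ (S.card + 1) * Q.card ^ (Fintype.card V - (S.card + 1)) * Q.card
              = (Q.card - Δ) * ((Q.card - Δ) ^ S.card *
                Q.card ^ (Fintype.card V - (S.card + 1) + 1)) := by rw [pow_succ, pow_succ]; ring
            _ = (Q.card - Δ) * ((Q.card - Δ) ^ S.card * Q.card ^ (Fintype.card V - S.card)) := by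
                rw [show Fintype.card V - (S.card + 1) + 1 = Fintype.card V - S.card by omega]
            _ ≤ _ := Nat.mul_le_mul_left _ ih
        exact Nat.le_of_mul_le_mul_right h2 hQ
  have := hall univ
  rw [card_univ, Nat.sub_self, pow_zero, mul_one] at this
  refine this.trans (card_le_card ?_)
  intro J hJ
  rw [mem_filter] at hJ ⊢
  exact ⟨hJ.1, fun u v => hJ.2 u (mem_univ _) v (mem_univ _)⟩

end Pool.Agent.H97.Q2
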