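import Pool.Agent.H97.Q2.Lower
import Pool.Agent.H97.Q2.Harris

/-!
# Choosing one blocking face for every edge of a subcube
-/

open Finset

namespace Pool.Agent.H97.Q2

variable {d : ℕ}

/-- Two subcubes are compatible if they agree on the coordinates fixed in both. -/
def Compat (e e' : Edge d) : Prop := ∀ l, e.1 l ≠ none → e'.1 l ≠ none → e.1 l = e'.1 l

instance (e e' : Edge d) : Decidable (Compat e e') := by unfold Compat; infer_instance

lemma Compat.symm {e e' : Edge d} (h : Compat e e') : Compat e' e :=
  fun l h1 h2 => (h l h2 h1).symm

/-- An edge of the face spanned by an edge `e` of `c` and a direction `j` fixed in `c`, other than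
`e`, deviates from `c` exactly in the coordinate `j`. -/
lemma triple_dev {c : Subcube d} {e x : Edge d} {j : Fin d} (he : Within e.1 c) (hj : c j ≠ none)
    (hx : x ∈ triple e j) : x.1 j ≠ c j ∧ ∀ l, l ≠ j → c l ≠ none → x.1 l = c l := by
  constructor
  · intro h
    have hxj : x.1 j ≠ none := by rw [h]; exact hj
    have h1 := eq_update_of_mem_triple hx hxj
    rw [h, ← he j hj, Function.update_eq_self] at h1
    exact (mem_triple.1 hx).1 (Subtype.ext h1)
  · intro l hl hc
    have h1 := he l hc
    have h2 := (mem_triple.1 hx).2 l (by rw [Function.update_of_ne hl, h1]; exact hc)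
    rw [Function.update_of_ne hl, h1] at h2
    exact h2

lemma triple_common {c : Subcube d} {e e' x : Edge d} {j j' : Fin d} (he : Within e.1 c)
    (he' : Within e'.1 c) (hj : c j ≠ none) (hj' : c j' ≠ none) (hx : x ∈ triple e j)
    (hx' : x ∈ triple e' j') : j = j' ∧ Compat e e' ∧ (x.1 j ≠ none → e = e') := by
  have hjj : j = j' := by
    by_contra h
    exact (triple_dev he hj hx).1 ((triple_dev he' hj' hx').2 j h hj)
  subst hjj
  refine ⟨rfl, ?_, ?_⟩
  · intro l h1 h2
    by_cases hl : l = j
    · subst hl; rw [he l hj, he' l hj]
    · have h3 := (mem_triple.1 hx).2 l (by rw [Function.update_of_ne hl]; exact h1)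
      have h4 := (mem_triple.1 hx').2 l (by rw [Function.update_of_ne hl]; exact h2)
      rw [Function.update_of_ne hl] at h3 h4
      rw [← h3, ← h4]
  · intro hxj
    have h3 := eq_update_of_mem_triple hx hxj
    have h4 := eq_update_of_mem_triple hx' hxj
    apply Subtype.ext
    funext l
    by_cases hl : l = j
    · subst hl; rw [he l hj, he' l hj]
    · have := congrFun (h3.symm.trans h4) l
      rwa [Function.update_of_ne hl, Function.update_of_ne hl] at this

section

variable (c : Subcube d)

/-- The union of the chosen triples. -/
def TT (J : {e // e ∈ inEdges c} → Fin d) : Finset (Edge d) :=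
  univ.biUnion fun e : {e // e ∈ inEdges c} => triple e.1 (J e)

/-- A choice of directions fixed in `c` which is proper: edges of `c` with a common vertex get
distinct directions. -/
def Nice (J : {e // e ∈ inEdges c} → Fin d) : Prop :=
  (∀ e, c (J e) ≠ none) ∧ ∀ e e', e ≠ e' → Compat e.1 e'.1 → J e ≠ J e'

variable {c}

lemma mem_TT {J : {e // e ∈ inEdges c} → Fin d} {x : Edge d} :
    x ∈ TT c J ↔ ∃ e, x ∈ triple e.1 (J e) := by
  simp [TT]

lemma within_of_sub (e : {e // e ∈ inEdges c}) : Within e.1.1 c := mem_inEdges.1 e.2

lemma Nice.disjoint {J : {e // e ∈ inEdges c} → Fin d} (hJ : Nice c J)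
    {e e' : {e // e ∈ inEdges c}} (h : e ≠ e') : Disjoint (triple e.1 (J e)) (triple e'.1 (J e')) := by
  rw [Finset.disjoint_left]
  intro x hx hx'
  obtain ⟨h1, h2, _⟩ := triple_common (within_of_sub e) (within_of_sub e') (hJ.1 e) (hJ.1 e') hx hx'
  exact hJ.2 e e' h h2 h1

lemma Nice.card_TT {J : {e // e ∈ inEdges c} → Fin d} (hJ : Nice c J) :
    (TT c J).card = 3 * (inEdges c).card := by
  unfold TT
  rw [card_biUnion fun e _ e' _ h => hJ.disjoint h]
  rw [Finset.sum_congr rfl (g := fun _ => 3)]
  · rw [sum_const, card_univ, Fintype.card_coe, smul_eq_mul, mul_comm]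
  · intro e _
    apply card_triple
    rw [within_of_sub e _ (hJ.1 e)]
    exact hJ.1 e

/-- The edges of `c` which are compatible with a given edge of `c`. -/
lemma card_compat_le (e : {e // e ∈ inEdges c}) :
    (univ.filter fun e' : {e // e ∈ inEdges c} => Compat e'.1 e.1).card ≤ 2 * dim c := by
  classical
  obtain ⟨i, hi, hi'⟩ := edge_dir e.1
  have h1 : ((univ.filter fun e' : {e // e ∈ inEdges c} => Compat e'.1 e.1).image
      fun e' => e'.1.1) ⊆ ((free c ×ˢ (univ : Finset Bool)).image fun p =>
        Function.update (Function.update e.1.1 i (some p.2)) p.1 none) := by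
    intro x hx
    rw [mem_image] at hx
    obtain ⟨e', he', rfl⟩ := hx
    have hcomp : Compat e'.1 e.1 := (mem_filter.1 he').2
    obtain ⟨i', hi1, hi2⟩ := edge_dir e'.1
    rw [mem_image]
    refine ⟨(i', (e'.1.1 i).getD false), ?_, ?_⟩
    · rw [mem_product]
      exact ⟨mem_free.2 (within_free (within_of_sub e') hi1), mem_univ _⟩
    · funext m
      by_cases hm : m = i'
      · subst hm; simp [hi1]
      · simp only [Function.update_of_ne hm]
        have hne : e'.1.1 m ≠ none := fun h => hm (hi2 m h)
        by_cases hmi : m = i
        · subst hmi
          simp only [Function.update_self]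
          obtain ⟨b, hb⟩ := Option.ne_none_iff_exists'.1 hne
          rw [hb]; rfl
        · rw [Function.update_of_ne hmi]
          exact (hcomp m hne (fun h => hmi (hi' m h))).symm
  have h2 := card_le_card h1
  rw [card_image_of_injective _ (fun a b h => Subtype.ext (Subtype.ext h))] at h2
  refine h2.trans (card_image_le.trans ?_)
  rw [card_product, card_free, card_univ, Fintype.card_bool, mul_comm]

/-- Overlap of the triple of `e'` in direction `j'` with the union of the chosen triples. -/
lemma overlap {J : {e // e ∈ inEdges c} → Fin d} (hJ : Nice c J)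
    (e' : {e // e ∈ inEdges c}) {j' : Fin d} (hj' : c j' ≠ none) (hne : j' ≠ J e') :
    (triple e'.1 j' ∩ TT c J).card ≤ 2 ∧ ((triple e'.1 j' ∩ TT c J).Nonempty →
      j' ∈ (univ.filter fun e : {e // e ∈ inEdges c} => Compat e.1 e'.1).image J) := by
  have hw := within_of_sub e'
  have he'j : e'.1.1 j' ≠ none := by rw [hw j' hj']; exact hj'
  have key : ∀ x, x ∈ triple e'.1 j' → x ∈ TT c J →
      x.1 j' = none ∧ ∃ e : {e // e ∈ inEdges c}, Compat e.1 e'.1 ∧ J e = j' := by
    intro x hx hxT
    obtain ⟨e, he⟩ := mem_TT.1 hxT
    obtain ⟨h1, h2, h3⟩ := triple_common (within_of_sub e) hw (hJ.1 e) hj' he hx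
    refine ⟨?_, e, h2, h1⟩
    by_contra hcon
    rw [← h1] at hcon
    have : e = e' := Subtype.ext (h3 hcon)
    subst this
    exact hne h1.symm
  constructor
  · obtain ⟨b, hb⟩ := Option.ne_none_iff_exists'.1 he'j
    have hdim : dim (Function.update e'.1.1 j' (some !b)) = 1 := by
      rw [dim_update_some he'j, e'.1.2]
    let p : Edge d := ⟨Function.update e'.1.1 j' (some !b), hdim⟩
    have hp : p ∈ triple e'.1 j' := by
      rw [mem_triple]
      constructor
      · intro h
        have := congrFun (congrArg Subtype.val h) j'
        simp [p, hb] at this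
      · intro l hl
        by_cases hlj : l = j'
        · subst hlj; simp at hl
        · simp [p, hlj]
    have hpT : p ∉ TT c J := by
      intro h
      have := (key p hp h).1
      simp [p] at this
    have hsub : triple e'.1 j' ∩ TT c J ⊆ (triple e'.1 j').erase p := by
      intro x hx
      rw [mem_inter] at hx
      rw [mem_erase]
      exact ⟨fun h => hpT (h ▸ hx.2), hx.1⟩
    refine (card_le_card hsub).trans ?_
    rw [card_erase_of_mem hp, card_triple he'j]
  · rintro ⟨x, hx⟩
    rw [mem_inter] at hx
    obtain ⟨_, e, h1, h2⟩ := key x hx.1 hx.2
    rw [mem_image]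
    exact ⟨e, by simpa using h1, h2⟩

/-- The chosen edges deviate from `c`. -/
lemma disjoint_TT_inEdges {J : {e // e ∈ inEdges c} → Fin d} (hJ : Nice c J) :
    Disjoint (TT c J) (inEdges c) := by
  rw [Finset.disjoint_left]
  intro x hx hx'
  obtain ⟨e, he⟩ := mem_TT.1 hx
  exact (triple_dev (within_of_sub e) (hJ.1 e) he).1 (mem_inEdges.1 hx' _ (hJ.1 e))

/-- A face through a chosen edge `f`, none of whose other edges is in `c`, is not completely
chosen, and if it contains another chosen edge then its direction is one of few. -/
lemma threat {J : {e // e ∈ inEdges c} → Fin d} (hJ : Nice c J)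
    {e : {e // e ∈ inEdges c}} {f : Edge d} (hf : f ∈ triple e.1 (J e)) {l : Fin d}
    (hl : f.1 l ≠ none) (hdis : Disjoint (triple f l) (inEdges c)) :
    ¬ triple f l ⊆ TT c J ∧ ((triple f l ∩ TT c J).Nonempty →
      l ∈ free c ∪ (univ.filter fun e'' : {e // e ∈ inEdges c} => Compat e''.1 e.1).image J) := by
  set j := J e with hj
  have hcj : c j ≠ none := hJ.1 e
  have hwe := within_of_sub e
  obtain ⟨hdev, hagree⟩ := triple_dev hwe hcj hf
  -- deviation of a chosen edge
  have hTdev : ∀ x ∈ TT c J, ∀ a b : Fin d, a ≠ b → c a ≠ none → c b ≠ none →
      x.1 a ≠ c a → x.1 b ≠ c b → False := by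
    intro x hx a b hab ha hb hxa hxb
    obtain ⟨e₂, he₂⟩ := mem_TT.1 hx
    obtain ⟨_, h2⟩ := triple_dev (within_of_sub e₂) (hJ.1 e₂) he₂
    have h3 : a = J e₂ := by
      by_contra h
      exact hxa (h2 a h ha)
    have h4 : b = J e₂ := by
      by_contra h
      exact hxb (h2 b h hb)
    exact hab (h3.trans h4.symm)
  -- the edge of `c` itself
  have hlj : l ≠ j := by
    intro h
    rw [h] at hl hdis
    have hfe := eq_update_of_mem_triple hf hl
    refine Finset.disjoint_left.1 hdis (show e.1 ∈ triple f j from ?_) e.2
    rw [mem_triple]
    refine ⟨fun h => (mem_triple.1 hf).1 h.symm, ?_⟩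
    intro m hm
    by_cases hmj : m = j
    · subst hmj; simp at hm
    · rw [Function.update_of_ne hmj, hfe, Function.update_of_ne hmj]
  by_cases hcl : c l = none
  · -- `l` is a free direction of `c`
    refine ⟨?_, fun _ => mem_union_left _ (mem_free.2 hcl)⟩
    by_cases hfj : f.1 j = none
    · -- `f` leaves `c`: excluded
      exfalso
      have hdim : dim (Function.update (Function.update f.1 l none) j (c j)) = 1 := by
        have h1 : free (Function.update (Function.update f.1 l none) j (c j)) = {l} := by
          ext m
          rw [mem_free, mem_singleton]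
          by_cases hm : m = j
          · subst hm; simp [hcj, hlj.symm]
          · rw [Function.update_of_ne hm]
            by_cases hml : m = l
            · subst hml; simp
            · rw [Function.update_of_ne hml]
              constructor
              · intro h; exact absurd (edge_dir_unique f hfj h) hm
              · intro h; exact absurd h hml
        rw [← card_free, h1, card_singleton]
      let x : Edge d := ⟨Function.update (Function.update f.1 l none) j (c j), hdim⟩
      refine Finset.disjoint_left.1 hdis (show x ∈ triple f l from ?_) ?_
      · rw [mem_triple]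
        constructor
        · intro h
          have := congrFun (congrArg Subtype.val h) j
          simp only [x, Function.update_self, hfj] at this
          exact hcj this
        · intro m hm
          by_cases hmj : m = j
          · subst hmj; rw [Function.update_of_ne hlj.symm] at hm; exact absurd hfj hm
          · simp only [x]; rw [Function.update_of_ne hmj]
      · rw [mem_inEdges]
        intro m hm
        by_cases hmj : m = j
        · subst hmj; simp [x]
        · have hml : m ≠ l := by rintro rfl; exact hm hcl
          simp only [x]
          rw [Function.update_of_ne hmj, Function.update_of_ne hml]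
          exact hagree m hmj hm
    · -- `f` is parallel to `c`
      intro hsub
      obtain ⟨i, hi, hi'⟩ := edge_dir f
      have hli : l ≠ i := by rintro rfl; exact hl hi
      have hji : j ≠ i := by
        intro h; rw [h] at hfj; exact hfj hi
      have hdim : dim (Function.update (Function.update f.1 l none) i (some false)) = 1 := by
        have h1 : free (Function.update (Function.update f.1 l none) i (some false)) = {l} := by
          ext m
          rw [mem_free, mem_singleton]
          by_cases hm : m = i
          · subst hm; simp [hli.symm]
          · rw [Function.update_of_ne hm]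
            by_cases hml : m = l
            · subst hml; simp
            · rw [Function.update_of_ne hml]
              constructor
              · intro h; exact absurd (hi' m h) hm
              · intro h; exact absurd h hml
        rw [← card_free, h1, card_singleton]
      let x : Edge d := ⟨Function.update (Function.update f.1 l none) i (some false), hdim⟩
      have hx : x ∈ triple f l := by
        rw [mem_triple]
        constructor
        · intro h
          have := congrFun (congrArg Subtype.val h) i
          simp [x, hi] at this
        · intro m hm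
          by_cases hmi : m = i
          · subst hmi; rw [Function.update_of_ne hli.symm] at hm; exact absurd hi hm
          · simp only [x]; rw [Function.update_of_ne hmi]
      have hxj : x.1 j = f.1 j := by
        simp only [x]; rw [Function.update_of_ne hji, Function.update_of_ne hlj.symm]
      have hxl : x.1 l = none := by
        simp only [x]; rw [Function.update_of_ne hli, Function.update_self]
      obtain ⟨e₂, he₂⟩ := mem_TT.1 (hsub hx)
      obtain ⟨_, h2⟩ := triple_dev (within_of_sub e₂) (hJ.1 e₂) he₂
      have hj2 : j = J e₂ := by
        by_contra h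
        exact hdev (hxj ▸ h2 j h hcj)
      have hxj' : x.1 j ≠ none := by rw [hxj]; exact hfj
      have hx2 : x.1 = Function.update e₂.1.1 j (x.1 j) := by
        have := eq_update_of_mem_triple he₂ (by rw [← hj2]; exact hxj')
        rwa [← hj2] at this
      have hf2 := eq_update_of_mem_triple hf hfj
      have hne : e ≠ e₂ := by
        intro h
        have h3 : e.1.1 l = f.1 l := by
          rw [hf2, Function.update_of_ne hlj]
        have h4 : e₂.1.1 l = x.1 l := by
          rw [hx2, Function.update_of_ne hlj]
        rw [← h, h3, hxl] at h4
        exact hl h4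
      refine hJ.2 e e₂ hne ?_ (hj ▸ hj2)
      intro m h5 h6
      by_cases hmj : m = j
      · subst hmj; rw [hwe j hcj, within_of_sub e₂ j hcj]
      · have h7 : e.1.1 m = f.1 m := by rw [hf2, Function.update_of_ne hmj]
        have h8 : e₂.1.1 m = x.1 m := by rw [hx2, Function.update_of_ne hmj]
        rw [h7] at h5 ⊢
        rw [h8] at h6 ⊢
        have hmi : m ≠ i := by rintro rfl; exact h5 hi
        have hml : m ≠ l := by rintro rfl; exact h6 hxl
        simp only [x]
        rw [Function.update_of_ne hmi, Function.update_of_ne hml]
  · -- `l` is fixed in `c`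
    have hfl : f.1 l = c l := hagree l hlj hcl
    constructor
    · intro hsub
      obtain ⟨b, hb⟩ := Option.ne_none_iff_exists'.1 hl
      have hdim : dim (Function.update f.1 l (some !b)) = 1 := by
        rw [dim_update_some hl, f.2]
      let x : Edge d := ⟨Function.update f.1 l (some !b), hdim⟩
      have hx : x ∈ triple f l := by
        rw [mem_triple]
        constructor
        · intro h
          have := congrFun (congrArg Subtype.val h) l
          simp [x, hb] at this
        · intro m hm
          by_cases hml : m = l
          · subst hml; simp at hm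
          · simp only [x]; rw [Function.update_of_ne hml, Function.update_of_ne hml]
      refine hTdev x (hsub hx) j l hlj.symm hcj hcl ?_ ?_
      · simp only [x]; rw [Function.update_of_ne hlj.symm]; exact hdev
      · simp only [x]; rw [Function.update_self, ← hfl, hb]; simp
    · rintro ⟨x, hx⟩
      rw [mem_inter] at hx
      obtain ⟨hx1, hx2⟩ := hx
      have hxl : x.1 l = none := by
        by_contra hcon
        have h3 := eq_update_of_mem_triple hx1 hcon
        refine hTdev x hx2 j l hlj.symm hcj hcl ?_ ?_
        · rw [h3, Function.update_of_ne hlj.symm]; exact hdev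
        · intro h
          rw [h, ← hfl, Function.update_eq_self] at h3
          exact (mem_triple.1 hx1).1 (Subtype.ext h3)
      obtain ⟨e₂, he₂⟩ := mem_TT.1 hx2
      obtain ⟨_, h2⟩ := triple_dev (within_of_sub e₂) (hJ.1 e₂) he₂
      have hj2 : l = J e₂ := by
        by_contra h
        have := h2 l h hcl
        rw [hxl] at this
        exact hcl this.symm
      apply mem_union_right
      rw [mem_image]
      refine ⟨e₂, ?_, hj2.symm⟩
      rw [mem_filter]
      refine ⟨mem_univ _, ?_⟩
      intro m h5 h6
      by_cases hcm : c m = none
      · have hmj : m ≠ j := by rintro rfl; exact hcj hcm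
        have hml : m ≠ l := by rintro rfl; exact hcl hcm
        have h7 := (mem_triple.1 hf).2 m (by rw [Function.update_of_ne hmj]; exact h6)
        rw [Function.update_of_ne hmj] at h7
        have h8 := (mem_triple.1 he₂).2 m (by
          rw [← hj2, Function.update_of_ne hml]; exact h5)
        rw [← hj2, Function.update_of_ne hml] at h8
        have h9 := (mem_triple.1 hx1).2 m (by
          rw [Function.update_of_ne hml, h7]; exact h6)
        rw [Function.update_of_ne hml] at h9
        rw [← h8, h9, h7]
      · rw [within_of_sub e₂ m hcm, hwe m hcm]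

end

end Pool.Agent.H97.Q2
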