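import Pool.Agent.H97.Q2.Main

/-!
# The two bounds on the scale `c * log₂ d`
-/

open Finset Filter Topology

namespace Pool.Agent.H97.Q2

theorem tendsto_atTop_of_lt_one {c : ℝ} (hc0 : 0 ≤ c) (hc : c < 1) :
    Tendsto (fun d : ℕ => expectedEmpty d ⌊c * Real.logb 2 d⌋₊) atTop atTop := by
  have hev : ∀ᶠ d : ℕ in atTop, (c * Real.logb 2 d) * (d : ℝ) ^ c ≤ d / 3 := by
    have h1 : Tendsto (fun x : ℝ => (c * Real.logb 2 x) / x ^ (1 - c)) atTop (𝓝 0) := by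
      have hh : (0 : ℝ) < 1 - c := by linarith
      have hb : Tendsto (fun x : ℝ => Real.log x / x ^ (1 - c)) atTop (𝓝 0) :=
        (isLittleO_log_rpow_atTop hh).tendsto_div_nhds_zero
      have := hb.const_mul (c / Real.log 2)
      simp only [mul_zero] at this
      refine this.congr fun x => ?_
      rw [Real.logb]
      ring
    have h2 := (h1.comp tendsto_natCast_atTop_atTop).eventually_lt_const
      (show (0 : ℝ) < 1 / 3 by norm_num)
    filter_upwards [h2, eventually_ge_atTop 1] with d hd hd1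
    have hpos : (0 : ℝ) < (d : ℝ) := by exact_mod_cast hd1
    have hp : (0 : ℝ) < (d : ℝ) ^ (1 - c) := Real.rpow_pos_of_pos hpos _
    simp only [Function.comp] at hd
    rw [div_lt_iff₀ hp] at hd
    have hsplit : (d : ℝ) ^ c * (d : ℝ) ^ (1 - c) = d := by
      rw [← Real.rpow_add hpos]; simp
    have hpc : (0 : ℝ) < (d : ℝ) ^ c := Real.rpow_pos_of_pos hpos _
    calc (c * Real.logb 2 d) * (d : ℝ) ^ c
        = (d : ℝ) ^ c * (c * Real.logb 2 d) := by ring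
      _ ≤ (d : ℝ) ^ c * (1 / 3 * (d : ℝ) ^ (1 - c)) := mul_le_mul_of_nonneg_left hd.le hpc.le
      _ = 1 / 3 * ((d : ℝ) ^ c * (d : ℝ) ^ (1 - c)) := by ring
      _ = d / 3 := by rw [hsplit]; ring
  have hT : Tendsto (fun d : ℕ => Real.exp ((d : ℝ) / 10)) atTop atTop :=
    Real.tendsto_exp_atTop.comp (tendsto_natCast_atTop_atTop.atTop_div_const (by norm_num))
  refine tendsto_atTop_mono' _ ?_ hT
  filter_upwards [lower_main, hev, eventually_ge_atTop 1] with d hd hd2 hd1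
  apply hd
  have hpos : (0 : ℝ) < (d : ℝ) := by exact_mod_cast hd1
  have hd1' : (1 : ℝ) ≤ (d : ℝ) := by exact_mod_cast hd1
  have hlog : 0 ≤ Real.logb 2 d := Real.logb_nonneg (by norm_num) hd1'
  have hfl : (⌊c * Real.logb 2 d⌋₊ : ℝ) ≤ c * Real.logb 2 d :=
    Nat.floor_le (mul_nonneg hc0 hlog)
  have hpow : (2 : ℝ) ^ ⌊c * Real.logb 2 d⌋₊ ≤ (d : ℝ) ^ c := by
    calc (2 : ℝ) ^ ⌊c * Real.logb 2 d⌋₊ = (2 : ℝ) ^ ((⌊c * Real.logb 2 d⌋₊ : ℕ) : ℝ) :=
          (Real.rpow_natCast _ _).symm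
      _ ≤ (2 : ℝ) ^ (c * Real.logb 2 d) :=
          Real.rpow_le_rpow_of_exponent_le (by norm_num) hfl
      _ = ((2 : ℝ) ^ Real.logb 2 d) ^ c := by rw [mul_comm, Real.rpow_mul (by norm_num)]
      _ = (d : ℝ) ^ c := by rw [Real.rpow_logb (by norm_num) (by norm_num) hpos]
  refine le_trans ?_ hd2
  exact mul_le_mul hfl hpow (by positivity) (mul_nonneg hc0 hlog)

theorem tendsto_zero_of_ge {c : ℝ} (hc : 4 / 3 ≤ c) :
    Tendsto (fun d : ℕ => expectedEmpty d ⌊c * Real.logb 2 d⌋₊) atTop (𝓝 0) := by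
  have hT : Tendsto (fun d : ℕ => Real.exp (-((d : ℝ) / 2))) atTop (𝓝 0) :=
    Real.tendsto_exp_neg_atTop_nhds_zero.comp
      (tendsto_natCast_atTop_atTop.atTop_div_const (by norm_num))
  have h32 : ∀ᶠ d : ℕ in atTop, (33 : ℝ) ≤ Real.logb 2 d :=
    ((Real.tendsto_logb_atTop (by norm_num)).comp
      tendsto_natCast_atTop_atTop).eventually_ge_atTop 33
  refine tendsto_of_tendsto_of_tendsto_of_le_of_le' tendsto_const_nhds hT ?_ ?_
  · filter_upwards with d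
    rw [expectedEmpty_eq]
    exact Finset.sum_nonneg fun c _ => prob_nonneg c
  · filter_upwards [upper_main, h32, eventually_ge_atTop 1] with d hd hd2 hd1
    apply hd
    have hpos : (0 : ℝ) < (d : ℝ) := by exact_mod_cast hd1
    have hd1' : (1 : ℝ) ≤ (d : ℝ) := by exact_mod_cast hd1
    have hfl : c * Real.logb 2 d < (⌊c * Real.logb 2 d⌋₊ : ℝ) + 1 := Nat.lt_floor_add_one _
    have hcl : 33 ≤ c * Real.logb 2 d := by nlinarith
    have hk : (32 : ℝ) ≤ (⌊c * Real.logb 2 d⌋₊ : ℝ) := by linarith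
    have hpow : (d : ℝ) ^ (4 / 3 : ℝ) ≤ 2 * (2 : ℝ) ^ ⌊c * Real.logb 2 d⌋₊ := by
      calc (d : ℝ) ^ (4 / 3 : ℝ) ≤ (d : ℝ) ^ c := Real.rpow_le_rpow_of_exponent_le hd1' hc
        _ = ((2 : ℝ) ^ Real.logb 2 d) ^ c := by
            rw [Real.rpow_logb (by norm_num) (by norm_num) hpos]
        _ = (2 : ℝ) ^ (c * Real.logb 2 d) := by rw [← Real.rpow_mul (by norm_num), mul_comm]
        _ ≤ (2 : ℝ) ^ ((⌊c * Real.logb 2 d⌋₊ : ℝ) + 1) :=
            Real.rpow_le_rpow_of_exponent_le (by norm_num) hfl.le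
        _ = 2 * (2 : ℝ) ^ ⌊c * Real.logb 2 d⌋₊ := by
            rw [Real.rpow_add (by norm_num), Real.rpow_natCast, Real.rpow_one, mul_comm]
    have hp2 : (0 : ℝ) < (2 : ℝ) ^ ⌊c * Real.logb 2 d⌋₊ := by positivity
    nlinarith

end Pool.Agent.H97.Q2
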