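import Pool.Agent.H97.Q2.Upper

/-!
# Lower bound for the probability that a given subcube is empty
-/

open Finset

namespace Pool.Agent.H97.Q2

variable {d : ℕ}

/-- The number of coordinates fixed to `true`. -/
def par (x : Subcube d) : ℕ := (univ.filter fun l => x l = some true).card

lemma par_update (x : Subcube d) (j : Fin d) :
    par (Function.update x j (some true)) = par (Function.update x j (some false)) + 1 := by
  unfold par
  have h : (univ.filter fun l => Function.update x j (some true) l = some true) =
      insert j (univ.filter fun l => Function.update x j (some false) l = some true) := by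
    ext l
    simp only [mem_filter, mem_univ, true_and, mem_insert]
    by_cases hl : l = j
    · subst hl; simp
    · simp [hl]
  rw [h, card_insert_of_notMem (by simp)]

lemma even_par_update (x : Subcube d) (j : Fin d) (b : Bool) :
    Even (par (Function.update x j (some !b))) ↔ ¬ Even (par (Function.update x j (some b))) := by
  cases b
  · rw [Bool.not_false, par_update, Nat.even_add_one]
  · rw [Bool.not_true, par_update, Nat.even_add_one, not_not]

/-- The edges that are forced to be present in order to make the subcube `c` empty: all edges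
leaving `c` in the directions `j₁` and `j₂`, the edges of the translate of `c` in direction `j₁`
satisfying `P`, and the edges of the translate in direction `j₂` not satisfying `P`. -/
def forced (c : Subcube d) (j₁ j₂ : Fin d) (b₁ b₂ : Bool) (P : Edge d → Prop) [DecidablePred P] :
    Finset (Edge d) :=
  univ.filter fun e =>
    (Within e.1 (Function.update c j₁ none) ∧ e.1 j₁ = none) ∨
    (Within e.1 (Function.update c j₂ none) ∧ e.1 j₂ = none) ∨
    (Within e.1 (Function.update c j₁ (some !b₁)) ∧ P e) ∨
    (Within e.1 (Function.update c j₂ (some !b₂)) ∧ ¬ P e)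

section

variable {c : Subcube d} {j₁ j₂ : Fin d} {b₁ b₂ : Bool} {P : Edge d → Prop} [DecidablePred P]

lemma mem_forced {e : Edge d} : e ∈ forced c j₁ j₂ b₁ b₂ P ↔
    (Within e.1 (Function.update c j₁ none) ∧ e.1 j₁ = none) ∨
    (Within e.1 (Function.update c j₂ none) ∧ e.1 j₂ = none) ∨
    (Within e.1 (Function.update c j₁ (some !b₁)) ∧ P e) ∨
    (Within e.1 (Function.update c j₂ (some !b₂)) ∧ ¬ P e) := by
  simp [forced]

lemma dim_update_some {c : Subcube d} {j : Fin d} (hj : c j ≠ none) (b : Bool) :
    dim (Function.update c j (some b)) = dim c := by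
  have h : free (Function.update c j (some b)) = free c := by
    ext l
    simp only [mem_free]
    by_cases hl : l = j
    · subst hl; simp [hj]
    · simp [hl]
  rw [← card_free, h, card_free]

lemma card_forced_le {k : ℕ} (hk : dim c = k) (h₁ : c j₁ = some b₁) (h₂ : c j₂ = some b₂) :
    (forced c j₁ j₂ b₁ b₂ P).card ≤ (k + 2) * 2 ^ k := by
  have hs : forced c j₁ j₂ b₁ b₂ P ⊆
      (dirEdges (Function.update c j₁ none) j₁ ∪ dirEdges (Function.update c j₂ none) j₂) ∪
      (inEdges (Function.update c j₁ (some !b₁)) ∪ inEdges (Function.update c j₂ (some !b₂))) := by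
    intro e he
    rw [mem_forced] at he
    simp only [mem_union, mem_dirEdges, mem_inEdges]
    tauto
  have n₁ : c j₁ ≠ none := by simp [h₁]
  have n₂ : c j₂ ≠ none := by simp [h₂]
  have hc := (card_le_card hs).trans ((card_union_le _ _).trans
    (add_le_add (card_union_le _ _) (card_union_le _ _)))
  rw [card_dirEdges (by simp), card_dirEdges (by simp), card_inEdges, card_inEdges,
    dim_update_none n₁, dim_update_none n₂, dim_update_some n₁, dim_update_some n₂, hk] at hc
  have e1 : k + 1 - 1 = k := by omega
  rw [e1] at hc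
  refine hc.trans ?_
  rcases k with _ | k
  · simp
  · rw [show k + 1 - 1 = k by omega, pow_succ]
    ring_nf
    exact le_refl _

/-- The edge obtained from a two-dimensional subcube by fixing a free coordinate. -/
def fixEdge (c : Subcube d) (hc : dim c = 2) (b : Fin d) (hb : c b = none) (s : Bool) : Edge d :=
  ⟨Function.update c b (some s), by
    have h : free (Function.update c b (some s)) = (free c).erase b := by
      ext l
      simp only [mem_free, mem_erase]
      by_cases hl : l = b
      · subst hl; simp
      · simp [hl]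
    rw [← card_free, h, card_erase_of_mem (mem_free.2 hb), card_free, hc]⟩

lemma fixEdge_within (c : Subcube d) (hc : dim c = 2) (b : Fin d) (hb : c b = none) (s : Bool) :
    Within (fixEdge c hc b hb s).1 c := by
  intro l hl
  have : l ≠ b := by rintro rfl; exact hl hb
  simp [fixEdge, this]

/-- The case of a face in direction `j₁` and another direction different from `j₂`. -/
lemma face_aux (hne : j₁ ≠ j₂) (h₁ : c j₁ = some b₁) (h₂ : c j₂ = some b₂)
    {c' : Subcube d} (hc' : dim c' = 2) (h1 : c' j₁ = none) {b : Fin d} (hb : c' b = none)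
    (hb1 : b ≠ j₁) (hb2 : b ≠ j₂)
    (hall : ∀ e : Edge d, Within e.1 c' → e ∈ forced c j₁ j₂ b₁ b₂ P) : False := by
  have dir : ∀ s, (fixEdge c' hc' j₁ h1 s).1 b = none := fun s => by simp [fixEdge, hb1, hb]
  have hj1 : ∀ s, (fixEdge c' hc' j₁ h1 s).1 j₁ = some s := fun s => by simp [fixEdge]
  have hj2 : ∀ s, (fixEdge c' hc' j₁ h1 s).1 j₂ = c' j₂ := fun s => by
    simp [fixEdge, hne.symm]
  have hj2n : ∀ s, (fixEdge c' hc' j₁ h1 s).1 j₂ ≠ none := fun s h =>
    hb2 (edge_dir_unique _ h (dir s))
  have A := mem_forced.1 (hall _ (fixEdge_within c' hc' j₁ h1 b₁))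
  have B := mem_forced.1 (hall _ (fixEdge_within c' hc' j₁ h1 (!b₁)))
  have hA : c' j₂ = some !b₂ := by
    rcases A with A | A | A | A
    · rw [hj1] at A; simp at A
    · exact absurd A.2 (hj2n _)
    · have := A.1 j₁ (by simp)
      rw [hj1] at this
      simp at this
    · have := A.1 j₂ (by simp)
      rw [hj2] at this
      simpa using this
  have hB : c' j₂ = some b₂ := by
    rcases B with B | B | B | B
    · rw [hj1] at B; simp at B
    · exact absurd B.2 (hj2n _)
    · have := B.1 j₂ (by rw [Function.update_of_ne hne.symm, h₂]; simp)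
      rw [hj2, Function.update_of_ne hne.symm, h₂] at this
      exact this
    · have := B.1 j₁ (by rw [Function.update_of_ne hne, h₁]; simp)
      rw [hj1, Function.update_of_ne hne, h₁] at this
      simp at this
  rw [hA] at hB
  simp at hB

lemma face_swap {e : Edge d} : e ∈ forced c j₁ j₂ b₁ b₂ P ↔
    e ∈ forced c j₂ j₁ b₂ b₁ (fun e => ¬ P e) := by
  rw [mem_forced, mem_forced]
  rw [not_not]
  tauto

/-- The forced set is `Q_2`-free. -/
lemma forced_free (hne : j₁ ≠ j₂) (h₁ : c j₁ = some b₁) (h₂ : c j₂ = some b₂) :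
    Q2Free (forced c j₁ j₂ b₁ b₂ fun e => Even (par e.1)) := by
  intro c' hc'
  by_contra hcon
  push Not at hcon
  have hc2 : (free c').card = 2 := hc'
  obtain ⟨a, b, hab, hfree⟩ := card_eq_two.1 hc2
  have ha : c' a = none := by rw [← mem_free, hfree]; simp
  have hb : c' b = none := by rw [← mem_free, hfree]; simp
  -- the case of both directions
  have hboth : ∀ {a b : Fin d}, c' a = none → c' b = none → a = j₁ → b = j₂ → False := by
    intro a b ha hb h h'
    subst h h'
    have A := mem_forced.1 (hcon _ (fixEdge_within c' hc' b hb (!b₂)))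
    have e1 : (fixEdge c' hc' b hb (!b₂)).1 b = some !b₂ := by simp [fixEdge]
    have e2 : (fixEdge c' hc' b hb (!b₂)).1 a = none := by simp [fixEdge, hne, ha]
    rcases A with A | A | A | A
    · have := A.1 b (by rw [Function.update_of_ne hne.symm, h₂]; simp)
      rw [e1, Function.update_of_ne hne.symm, h₂] at this
      simp at this
    · rw [e1] at A; simp at A
    · have := A.1 a (by simp)
      rw [e2] at this
      simp at this
    · have := A.1 a (by rw [Function.update_of_ne hne, h₁]; simp)
      rw [e2, Function.update_of_ne hne, h₁] at this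
      simp at this
  have hone1 : ∀ {b : Fin d}, c' j₁ = none → c' b = none → b ≠ j₁ → b ≠ j₂ → False :=
    fun h hb hb1 hb2 => face_aux hne h₁ h₂ hc' h hb hb1 hb2 hcon
  have hone2 : ∀ {b : Fin d}, c' j₂ = none → c' b = none → b ≠ j₁ → b ≠ j₂ → False :=
    fun h hb hb1 hb2 => face_aux hne.symm h₂ h₁ hc' h hb hb2 hb1
      (fun e he => face_swap.1 (hcon e he))
  by_cases ha1 : a = j₁
  · by_cases hb2 : b = j₂
    · exact hboth ha hb ha1 hb2
    · exact hone1 (ha1 ▸ ha) hb (fun h => hab (ha1.trans h.symm)) hb2
  by_cases ha2 : a = j₂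
  · by_cases hb1 : b = j₁
    · exact hboth hb ha hb1 ha2
    · exact hone2 (ha2 ▸ ha) hb hb1 (fun h => hab (ha2.trans h.symm))
  by_cases hb1 : b = j₁
  · exact hone1 (hb1 ▸ hb) ha ha1 ha2
  by_cases hb2 : b = j₂
  · exact hone2 (hb2 ▸ hb) ha ha1 ha2
  -- none of the two directions
  have hd : ∀ s, (fixEdge c' hc' b hb s).1 a = none := fun s => by simp [fixEdge, hab, ha]
  have hn1 : ∀ s, (fixEdge c' hc' b hb s).1 j₁ ≠ none := fun s h =>
    ha1 (edge_dir_unique _ h (hd s))
  have hn2 : ∀ s, (fixEdge c' hc' b hb s).1 j₂ ≠ none := fun s h =>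
    ha2 (edge_dir_unique _ h (hd s))
  have e1 : ∀ s, (fixEdge c' hc' b hb s).1 j₁ = c' j₁ := fun s => by
    simp [fixEdge, Ne.symm hb1]
  have hP : ∀ s, (c' j₁ = some (!b₁) → Even (par (fixEdge c' hc' b hb s).1)) ∧
      (c' j₁ ≠ some (!b₁) → ¬ Even (par (fixEdge c' hc' b hb s).1)) := by
    intro s
    rcases mem_forced.1 (hcon _ (fixEdge_within c' hc' b hb s)) with A | A | A | A
    · exact absurd A.2 (hn1 s)
    · exact absurd A.2 (hn2 s)
    · have := A.1 j₁ (by simp)
      rw [e1] at this
      refine ⟨fun _ => A.2, fun h => absurd ?_ h⟩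
      simpa using this
    · refine ⟨fun h => ?_, fun _ => A.2⟩
      have := A.1 j₁ (by rw [Function.update_of_ne hne, h₁]; simp)
      rw [e1, Function.update_of_ne hne, h₁, h] at this
      simp at this
  have hpar := even_par_update c' b false
  have et : (fixEdge c' hc' b hb true).1 = Function.update c' b (some !false) := rfl
  have ef : (fixEdge c' hc' b hb false).1 = Function.update c' b (some false) := rfl
  rw [← et, ← ef] at hpar
  by_cases hcj : c' j₁ = some (!b₁)
  · exact hpar.1 ((hP true).1 hcj) ((hP false).1 hcj)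
  · exact (hP true).2 hcj (hpar.2 ((hP false).2 hcj))

lemma eq_update_of_mem_triple {e x : Edge d} {j : Fin d} (hx : x ∈ triple e j)
    (hj : x.1 j ≠ none) : x.1 = Function.update e.1 j (x.1 j) := by
  rw [mem_triple] at hx
  funext l
  by_cases hl : l = j
  · subst hl; simp
  · rw [Function.update_of_ne hl]
    by_cases hel : e.1 l = none
    · obtain ⟨i, hi, _⟩ := edge_dir x
      have := within_free hx.2 hi
      have hij : i ≠ j := by rintro rfl; exact hj hi
      rw [Function.update_of_ne hij] at this
      have := edge_dir_unique e hel this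
      rw [hel, ← this, hi]
    · have := hx.2 l (by rw [Function.update_of_ne hl]; exact hel)
      rw [this, Function.update_of_ne hl]

lemma update_within_update {a b : Subcube d} (h : Within a b) (j : Fin d) (v : Option Bool) :
    Within (Function.update a j v) (Function.update b j v) := by
  intro l hl
  by_cases hlj : l = j
  · subst hlj; simp
  · rw [Function.update_of_ne hlj] at hl ⊢
    rw [Function.update_of_ne hlj]
    exact h l hl

/-- Every edge of `c` is blocked by the forced set. -/
lemma exists_triple_subset (h₁ : c j₁ = some b₁) (h₂ : c j₂ = some b₂)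
    {e : Edge d} (he : Within e.1 c) :
    ∃ j, e.1 j ≠ none ∧ triple e j ⊆ forced c j₁ j₂ b₁ b₂ fun e => Even (par e.1) := by
  have he1 : e.1 j₁ = some b₁ := by rw [he j₁ (by simp [h₁]), h₁]
  have he2 : e.1 j₂ = some b₂ := by rw [he j₂ (by simp [h₂]), h₂]
  have hx : ∀ {j : Fin d} {b : Bool}, e.1 j = some b → ∀ x ∈ triple e j,
      x.1 j ≠ none → x.1 = Function.update e.1 j (some !b) := by
    intro j b hej x hx hxj
    have h := eq_update_of_mem_triple hx hxj
    obtain ⟨s, hs⟩ := Option.ne_none_iff_exists'.1 hxj
    rw [hs] at h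
    have hsb : s = !b := by
      by_contra hsb
      have hsb' : s = b := by
        cases s <;> cases b <;> simp_all
      rw [hsb', ← hej, Function.update_eq_self] at h
      exact (mem_triple.1 hx).1 (Subtype.ext h)
    rw [h, hsb]
  by_cases hE : Even (par e.1)
  · refine ⟨j₂, by simp [he2], fun x hxt => ?_⟩
    rw [mem_forced]
    by_cases hxj : x.1 j₂ = none
    · exact Or.inr (Or.inl ⟨(mem_triple.1 hxt).2.trans (update_within_update he _ _), hxj⟩)
    · have h := hx he2 x hxt hxj
      refine Or.inr (Or.inr (Or.inr ⟨?_, ?_⟩))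
      · rw [h]; exact update_within_update he _ _
      · rw [h, even_par_update, ← he2, Function.update_eq_self, not_not]
        exact hE
  · refine ⟨j₁, by simp [he1], fun x hxt => ?_⟩
    rw [mem_forced]
    by_cases hxj : x.1 j₁ = none
    · exact Or.inl ⟨(mem_triple.1 hxt).2.trans (update_within_update he _ _), hxj⟩
    · have h := hx he1 x hxt hxj
      refine Or.inr (Or.inr (Or.inl ⟨?_, ?_⟩))
      · rw [h]; exact update_within_update he _ _
      · rw [h, even_par_update, ← he1, Function.update_eq_self]
        exact hE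

end

/-- The edges that have a face in common with an edge of `F`. -/
def nearby (F : Finset (Edge d)) : Finset (Edge d) :=
  (F.biUnion fun f => univ.biUnion fun j => triple f j) \ F

lemma card_nearby_le (F : Finset (Edge d)) : (nearby F).card ≤ 3 * d * F.card := by
  unfold nearby
  refine (card_le_card sdiff_subset).trans (card_biUnion_le.trans ?_)
  calc ∑ f ∈ F, (univ.biUnion fun j => triple f j).card ≤ ∑ _f ∈ F, 3 * d := by
        refine Finset.sum_le_sum fun f _ => card_biUnion_le.trans ?_
        calc ∑ j : Fin d, (triple f j).card ≤ ∑ _j : Fin d, 3 :=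
              Finset.sum_le_sum fun j _ => card_triple_le f j
          _ = 3 * d := by simp [mul_comm]
    _ = 3 * d * F.card := by rw [sum_const, smul_eq_mul, mul_comm]

/-- If the first edges contain the forced set and none of the edges near it, then the forced set is
accepted. -/
lemma subset_final {σ : Fin (numEdges d) ≃ Edge d} {F : Finset (Edge d)} (hF : Q2Free F) {m : ℕ}
    (h1 : F ⊆ firstSet σ m) (h2 : Disjoint (nearby F) (firstSet σ m)) : F ⊆ finalGraph σ := by
  intro f hf
  by_contra hcon
  obtain ⟨j, hj, hall⟩ := exists_of_notMem_final hcon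
  obtain ⟨e, he, heF⟩ := hF (Function.update f.1 j none) (by rw [dim_update_none hj, f.2])
  have hef : e ≠ f := by rintro rfl; exact heF hf
  have het : e ∈ triple f j := mem_triple.2 ⟨hef, he⟩
  obtain ⟨_, hpos⟩ := hall e het
  have hm : e ∈ firstSet σ m := by
    rw [mem_firstSet]
    exact (Fin.lt_def.1 hpos).trans (mem_firstSet.1 (h1 hf))
  have hn : e ∈ nearby F := by
    unfold nearby
    rw [mem_sdiff, mem_biUnion]
    exact ⟨⟨f, hf, mem_biUnion.2 ⟨j, mem_univ _, het⟩⟩, heF⟩
  exact Finset.disjoint_left.1 h2 hn hm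

theorem le_prob {t : ℝ} (h0 : 0 ≤ t) (h1 : t ≤ 1) (c : Subcube d) {k : ℕ} (hc : dim c = k)
    (hk : k + 2 ≤ d) :
    t ^ ((k + 2) * 2 ^ k) * (1 - t) ^ (3 * d * ((k + 2) * 2 ^ k)) ≤ prob c := by
  classical
  obtain ⟨j₁, j₂, hne, n₁, n₂⟩ : ∃ j₁ j₂, j₁ ≠ j₂ ∧ c j₁ ≠ none ∧ c j₂ ≠ none := by
    have h2 : 1 < (univ.filter fun j => c j ≠ none).card := by
      have h := Finset.card_filter_add_card_filter_not (s := (univ : Finset (Fin d)))
        (fun j => c j = none)
      rw [card_univ, Fintype.card_fin] at h
      have : (univ.filter fun j => c j = none).card = k := hc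
      have h' : (univ.filter fun j => ¬ c j = none).card =
        (univ.filter fun j => c j ≠ none).card := rfl
      omega
    obtain ⟨a, ha, b, hb, hab⟩ := one_lt_card.1 h2
    exact ⟨a, b, hab, (mem_filter.1 ha).2, (mem_filter.1 hb).2⟩
  obtain ⟨b₁, h₁⟩ := Option.ne_none_iff_exists'.1 n₁
  obtain ⟨b₂, h₂⟩ := Option.ne_none_iff_exists'.1 n₂
  set F := forced c j₁ j₂ b₁ b₂ (fun e => Even (par e.1)) with hF
  have hFfree : Q2Free F := forced_free hne h₁ h₂
  have hFcard : F.card ≤ (k + 2) * 2 ^ k := card_forced_le hc h₁ h₂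
  have hstep : ∑ S : Finset (Edge d), wt t S * (if F ⊆ S ∧ Disjoint (nearby F) S then 1 else 0) ≤
      prob c := by
    unfold prob
    refine le_average h0 h1 _ _ fun σ m _ => ?_
    by_cases h : F ⊆ firstSet σ m ∧ Disjoint (nearby F) (firstSet σ m)
    · have hsub := subset_final hFfree h.1 h.2
      have hemp : IsEmptyIn c (finalGraph σ) := by
        intro e he hmem
        obtain ⟨j, hj, ht⟩ := exists_triple_subset h₁ h₂ he
        obtain ⟨x, hx, hx'⟩ := finalGraph_free σ (Function.update e.1 j none)
          (by rw [dim_update_none hj, e.2])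
        by_cases hxe : x = e
        · exact hx' (hxe ▸ hmem)
        · exact hx' (hsub (ht (mem_triple.2 ⟨hxe, hx⟩)))
      rw [if_pos h, if_pos hemp]
    · rw [if_neg h]; positivity
  rw [sum_wt_superset (by
    unfold nearby; exact disjoint_sdiff)] at hstep
  refine le_trans ?_ hstep
  have hN : (nearby F).card ≤ 3 * d * ((k + 2) * 2 ^ k) :=
    (card_nearby_le F).trans (Nat.mul_le_mul_left _ hFcard)
  have h1t : 0 ≤ 1 - t := by linarith
  exact mul_le_mul (pow_le_pow_of_le_one h0 h1 hFcard)
    (pow_le_pow_of_le_one h1t (by linarith) hN) (pow_nonneg h1t _) (pow_nonneg h0 _)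

end Pool.Agent.H97.Q2
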