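import Pool.Agent.H97.Q2.Second

/-!
# Bounds for the expected number of empty subcubes
-/

open Finset Filter Topology

namespace Pool.Agent.H97.Q2

lemma card_dim_ge (d k : ℕ) (hk : k ≤ d) :
    2 ^ (d - k) ≤ (univ.filter fun c : Subcube d => dim c = k).card := by
  classical
  obtain ⟨K, _, hK⟩ := Finset.exists_subset_card_eq (s := (univ : Finset (Fin d))) (n := k)
    (by rw [card_univ, Fintype.card_fin]; exact hk)
  let T : Fin d → Finset (Option Bool) := fun l => if l ∈ K then {none} else {some true, some false}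
  have h1 : Fintype.piFinset T ⊆ univ.filter fun c : Subcube d => dim c = k := by
    intro c hc
    rw [Fintype.mem_piFinset] at hc
    simp only [mem_filter, mem_univ, true_and]
    rw [← hK]
    unfold dim
    congr 1
    ext l
    simp only [mem_filter, mem_univ, true_and]
    have := hc l
    by_cases hl : l ∈ K
    · simp [T, hl] at this; simp [hl, this]
    · simp only [T, if_neg hl, mem_insert, mem_singleton] at this
      rcases this with h | h <;> simp [hl, h]
  refine le_trans ?_ (card_le_card h1)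
  rw [Fintype.card_piFinset]
  have h2 : ∀ l, (T l).card = if l ∈ univ \ K then 2 else 1 := by
    intro l
    by_cases hl : l ∈ K <;> simp [T, hl]
  rw [Finset.prod_congr rfl fun l _ => h2 l, Finset.prod_ite_mem, univ_inter, prod_const,
    card_sdiff_of_subset (subset_univ K), card_univ, Fintype.card_fin, hK]

lemma card_dim_le (d k : ℕ) : (univ.filter fun c : Subcube d => dim c = k).card ≤ 3 ^ d := by
  refine (card_filter_le _ _).trans ?_
  rw [card_univ, Fintype.card_fun, Fintype.card_option, Fintype.card_bool, Fintype.card_fin]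

lemma prob_nonneg {d : ℕ} (c : Subcube d) : 0 ≤ prob c := by
  unfold prob
  positivity

theorem expectedEmpty_le {d k : ℕ} (hk : 2 ≤ k) {t : ℝ} (h0 : 0 ≤ t) (h1 : t ≤ 1) :
    expectedEmpty d k ≤ 3 ^ d * ((1 - t) ^ (k * 2 ^ (k - 2)) +
      k * (4 * ((d : ℝ) * t ^ 3)) ^ (2 ^ (k - 2))) := by
  rw [expectedEmpty_eq]
  calc _ ≤ ∑ _c ∈ univ.filter (fun c : Subcube d => dim c = k), ((1 - t) ^ (k * 2 ^ (k - 2)) +
      k * (4 * ((d : ℝ) * t ^ 3)) ^ (2 ^ (k - 2))) :=
        Finset.sum_le_sum fun c hc => prob_le h0 h1 c (mem_filter.1 hc).2 hk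
    _ = _ * ((1 - t) ^ (k * 2 ^ (k - 2)) +
      k * (4 * ((d : ℝ) * t ^ 3)) ^ (2 ^ (k - 2))) := by rw [sum_const, nsmul_eq_mul]
    _ ≤ _ := by
        refine mul_le_mul_of_nonneg_right ?_ ?_
        · exact_mod_cast card_dim_le d k
        · have : 0 ≤ 1 - t := by linarith
          positivity

/-- A fixed subcube of dimension `k` is empty with probability at least `31^(-k 2^(k-1))`. -/
theorem prob_ge_pow {d k : ℕ} (hd : 1 ≤ d) (hk : ((k : ℝ) + 1) * 1000 ≤ (d : ℝ) ^ (1 / 3 : ℝ))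
    (c : Subcube d) (hc : dim c = k) : (1 / 31 : ℝ) ^ (k * 2 ^ (k - 1)) ≤ prob c := by
  have hd1 : (1 : ℝ) ≤ d := by exact_mod_cast hd
  have hdpos : (0 : ℝ) < d := by linarith
  set s : ℝ := (d : ℝ) ^ (1 / 3 : ℝ) with hs
  have hk0 : (0 : ℝ) ≤ k := Nat.cast_nonneg k
  have hs1000 : 1000 ≤ s := by linarith
  have hspos : 0 < s := by linarith
  have hs3 : s ^ 3 = d := by
    rw [hs, ← Real.rpow_natCast, ← Real.rpow_mul hdpos.le]; norm_num
  have hsd : s * 1000 ≤ d := by
    rw [← hs3]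
    nlinarith [mul_pos hspos hspos, mul_nonneg hspos.le (show 0 ≤ s - 1000 by linarith)]
  have hkd : (k : ℝ) * 1000 ≤ d := by nlinarith
  set t : ℝ := 1 / (2 * s) with ht
  have ht0 : 0 < t := by positivity
  have hts : t * s = 1 / 2 := by rw [ht]; field_simp
  have ht1 : t ≤ 1 := by
    rw [ht, div_le_one (by positivity)]; linarith
  have ht3 : d * t ^ 3 = 1 / 8 := by
    rw [← hs3, ← mul_pow, mul_comm, hts]; norm_num
  have hinv3 : (1 / t) ^ 3 = 8 * d := by
    have : 1 / t = 2 * s := by rw [ht, one_div_one_div]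
    rw [this, mul_pow, hs3]; norm_num
  have hinv2 : (1 / t) ^ 2 = 4 * s ^ 2 := by
    have : 1 / t = 2 * s := by rw [ht, one_div_one_div]
    rw [this, mul_pow]; norm_num
  have h3k : 3 * dim c < d := by
    rw [hc]
    have : (3 * k : ℝ) < d := by linarith
    exact_mod_cast this
  have hmain := le_prob_second ht0 ht1 c h3k
  have hE : (inEdges c).card = k * 2 ^ (k - 1) := by rw [card_inEdges, hc]
  rw [hE, hc] at hmain
  set E := k * 2 ^ (k - 1) with hEdef
  set α : ℝ := (1 - t) * ((1 - t) ^ (3 * k) * (1 - t ^ 3) ^ d) ^ 3 with hα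
  set b : ℝ := d + 2 * k * (1 / t) ^ 2 + (1 / t) ^ 3 with hb
  have h1t : 0 ≤ 1 - t := by linarith
  have ht3le : t ^ 3 ≤ 1 := pow_le_one₀ ht0.le ht1
  have hα1 : 0.6 ≤ α := by
    have e1 : α = (1 - t) ^ (9 * k + 1) * (1 - t ^ 3) ^ (3 * d) := by
      rw [hα, mul_pow, ← pow_mul, ← pow_mul, pow_succ]; ring
    rw [e1]
    have e2 : 0.99 ≤ (1 - t) ^ (9 * k + 1) := by
      have h := one_add_mul_le_pow (a := -t) (by linarith) (9 * k + 1)
      rw [← sub_eq_add_neg] at h
      refine le_trans ?_ h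
      push_cast
      have : (9 * (k : ℝ) + 1) * t ≤ 0.01 := by
        rw [ht, mul_one_div, div_le_iff₀ (by positivity)]
        nlinarith
      linarith
    have e3 : 0.625 ≤ (1 - t ^ 3) ^ (3 * d) := by
      have h := one_add_mul_le_pow (a := -t ^ 3) (by linarith) (3 * d)
      rw [← sub_eq_add_neg] at h
      refine le_trans ?_ h
      push_cast
      have : 3 * (d : ℝ) * -t ^ 3 = -(3 * (d * t ^ 3)) := by ring
      rw [this, ht3]; norm_num
    calc (0.6 : ℝ) ≤ 0.99 * 0.625 := by norm_num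
      _ ≤ _ := mul_le_mul e2 e3 (by norm_num) (by positivity)
  have hbpos : 0 < b := by positivity
  have hb10 : b ≤ 10 * d := by
    rw [hb, hinv2, hinv3]
    have : 2 * (k : ℝ) * (4 * s ^ 2) ≤ d := by
      rw [← hs3]
      have : 8 * (k : ℝ) ≤ s := by linarith
      nlinarith [sq_nonneg s]
    linarith
  have hdk : 0.9 * (d : ℝ) ≤ ((d - 3 * k : ℕ) : ℝ) := by
    rw [Nat.cast_sub (by rw [hc] at h3k; omega)]
    push_cast
    linarith
  -- rewrite the main inequality
  have ht6 : 0 < t ^ 6 := by positivity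
  have h1 : (((d - 3 * k : ℕ) : ℝ) * (t ^ 3 * α) ^ 2) ^ E ≤ (t ^ 6 * b) ^ E * prob c := by
    rw [mul_pow, ← pow_mul]
    exact hmain
  have h2 : (t ^ 6 * b * (1 / 31)) ^ E ≤ (((d - 3 * k : ℕ) : ℝ) * (t ^ 3 * α) ^ 2) ^ E := by
    refine pow_le_pow_left₀ (by positivity) ?_ _
    have h3 : b * (1 / 31) ≤ ((d - 3 * k : ℕ) : ℝ) * α ^ 2 := by
      have h4 : (0.36 : ℝ) ≤ α ^ 2 := by nlinarith
      calc b * (1 / 31) ≤ 10 * d * (1 / 31) := mul_le_mul_of_nonneg_right hb10 (by norm_num)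
        _ ≤ 0.9 * d * 0.36 := by nlinarith
        _ ≤ _ := mul_le_mul hdk h4 (by norm_num) (by positivity)
    calc t ^ 6 * b * (1 / 31) = t ^ 6 * (b * (1 / 31)) := by ring
      _ ≤ t ^ 6 * (((d - 3 * k : ℕ) : ℝ) * α ^ 2) := mul_le_mul_of_nonneg_left h3 ht6.le
      _ = _ := by ring
  have h5 : (t ^ 6 * b) ^ E * (1 / 31) ^ E ≤ (t ^ 6 * b) ^ E * prob c := by
    rw [← mul_pow]
    exact h2.trans h1
  exact le_of_mul_le_mul_left h5 (by positivity)

/-- Below the lower threshold the expectation is exponentially large. -/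
theorem lower_main : ∀ᶠ d : ℕ in atTop, ∀ k : ℕ,
    (k : ℝ) * 2 ^ k ≤ d / 3 → Real.exp (d / 10) ≤ expectedEmpty d k := by
  have hl : ∀ᶠ d : ℕ in atTop, (2 * Real.log d + 1) * 1000 ≤ (d : ℝ) ^ (1 / 3 : ℝ) := by
    have h1 : Tendsto (fun x : ℝ => ((2 * Real.log x + 1) * 1000) / x ^ (1 / 3 : ℝ)) atTop
        (𝓝 0) := by
      have ha : Tendsto (fun x : ℝ => 1000 / x ^ (1 / 3 : ℝ)) atTop (𝓝 0) :=
        (tendsto_rpow_atTop (by norm_num : (0 : ℝ) < 1 / 3)).const_div_atTop 1000
      have hb : Tendsto (fun x : ℝ => Real.log x / x ^ (1 / 3 : ℝ)) atTop (𝓝 0) :=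
        (isLittleO_log_rpow_atTop (by norm_num : (0 : ℝ) < 1 / 3)).tendsto_div_nhds_zero
      have := ha.add (hb.const_mul 2000)
      simp only [mul_zero, add_zero] at this
      refine this.congr fun x => ?_
      ring
    have h2 := (h1.comp tendsto_natCast_atTop_atTop).eventually_lt_const
      (show (0 : ℝ) < 1 by norm_num)
    filter_upwards [h2, eventually_ge_atTop 1] with d hd hd1
    have hpos : (0 : ℝ) < (d : ℝ) ^ (1 / 3 : ℝ) := by
      apply Real.rpow_pos_of_pos; exact_mod_cast hd1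
    simp only [Function.comp] at hd
    rw [div_lt_one hpos] at hd
    exact hd.le
  filter_upwards [hl, eventually_ge_atTop 10000] with d hlog hd k hk
  have hd' : (10000 : ℝ) ≤ d := by exact_mod_cast hd
  have hdpos : (0 : ℝ) < d := by linarith
  have hlogpos : 0 ≤ Real.log d := Real.log_nonneg (by linarith)
  have hk0 : (0 : ℝ) ≤ k := Nat.cast_nonneg k
  -- the dimension is logarithmic
  have hklog : (k : ℝ) ≤ 2 * Real.log d := by
    rcases Nat.eq_zero_or_pos k with h | h
    · rw [h]; push_cast; linarith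
    · have hk1 : (1 : ℝ) ≤ k := by exact_mod_cast h
      have h1 : (2 : ℝ) ^ k ≤ d := by
        have h2 : (1 : ℝ) * 2 ^ k ≤ k * 2 ^ k := mul_le_mul_of_nonneg_right hk1 (by positivity)
        linarith
      have h3 : (k : ℝ) * Real.log 2 ≤ Real.log d := by
        rw [← Real.log_pow]
        exact Real.log_le_log (by positivity) h1
      have := Real.log_two_gt_d9
      nlinarith
  have hk1000 : ((k : ℝ) + 1) * 1000 ≤ (d : ℝ) ^ (1 / 3 : ℝ) := by
    refine le_trans ?_ hlog
    linarith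
  have hcube : (d : ℝ) ^ (1 / 3 : ℝ) ≤ d := by
    calc (d : ℝ) ^ (1 / 3 : ℝ) ≤ (d : ℝ) ^ (1 : ℝ) :=
          Real.rpow_le_rpow_of_exponent_le (by linarith) (by norm_num)
      _ = d := Real.rpow_one _
  have hkd : (k : ℝ) * 1000 ≤ d := by linarith
  have hkd' : k ≤ d := by
    have : (k : ℝ) ≤ d := by linarith
    exact_mod_cast this
  rw [expectedEmpty_eq]
  have hsum : (2 : ℝ) ^ (d - k) * (1 / 31) ^ (k * 2 ^ (k - 1)) ≤
      ∑ c ∈ univ.filter (fun c : Subcube d => dim c = k), prob c := by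
    calc (2 : ℝ) ^ (d - k) * (1 / 31) ^ (k * 2 ^ (k - 1))
        ≤ (univ.filter fun c : Subcube d => dim c = k).card * (1 / 31) ^ (k * 2 ^ (k - 1)) := by
          refine mul_le_mul_of_nonneg_right ?_ (by positivity)
          exact_mod_cast card_dim_ge d k hkd'
      _ = ∑ _c ∈ univ.filter (fun c : Subcube d => dim c = k), (1 / 31) ^ (k * 2 ^ (k - 1)) := by
          rw [sum_const, nsmul_eq_mul]
      _ ≤ _ := Finset.sum_le_sum fun c hc =>
          prob_ge_pow (by omega) hk1000 c (mem_filter.1 hc).2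
  refine le_trans ?_ hsum
  have hexp : (1 / 31 : ℝ) ^ (k * 2 ^ (k - 1)) =
      Real.exp (-(((k * 2 ^ (k - 1) : ℕ) : ℝ) * Real.log 31)) := by
    rw [one_div, inv_pow, Real.exp_neg, Real.exp_nat_mul, Real.exp_log (by norm_num)]
  have h2 : (2 : ℝ) ^ (d - k) = Real.exp (((d : ℝ) - k) * Real.log 2) := by
    rw [← Real.rpow_natCast, Nat.cast_sub hkd', Real.rpow_def_of_pos (by norm_num), mul_comm]
  rw [hexp, h2, ← Real.exp_add]
  apply Real.exp_le_exp.2
  have hlog2 := Real.log_two_gt_d9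
  have hlog2' := Real.log_two_lt_d9
  have hlog31 : Real.log 31 ≤ 3.47 := by
    have h1 : Real.log 31 ≤ Real.log 32 := Real.log_le_log (by norm_num) (by norm_num)
    have h3 : Real.log 32 = 5 * Real.log 2 := by
      rw [show (32 : ℝ) = 2 ^ (5 : ℕ) by norm_num, Real.log_pow]; norm_num
    rw [h3] at h1
    linarith
  have hEhalf : ((k * 2 ^ (k - 1) : ℕ) : ℝ) ≤ d / 6 := by
    push_cast
    rcases Nat.eq_zero_or_pos k with h | h
    · rw [h]; push_cast; rw [zero_mul]; linarith
    · have h4 : (2 : ℝ) ^ k = 2 * 2 ^ (k - 1) := by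
        conv_lhs => rw [show k = (k - 1) + 1 by omega, pow_succ]
        ring
      rw [h4] at hk
      linarith
  have hE0 : (0 : ℝ) ≤ ((k * 2 ^ (k - 1) : ℕ) : ℝ) := Nat.cast_nonneg _
  have h5 : ((k * 2 ^ (k - 1) : ℕ) : ℝ) * Real.log 31 ≤ d / 6 * 3.47 :=
    mul_le_mul hEhalf hlog31 (Real.log_nonneg (by norm_num)) (by linarith)
  have h6 : ((d : ℝ) - d / 1000) * 0.69 ≤ ((d : ℝ) - k) * Real.log 2 := by
    apply mul_le_mul <;> linarith
  linarith

/-- Above the upper threshold the expectation is exponentially small. -/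
theorem upper_main : ∀ᶠ d : ℕ in atTop, ∀ k : ℕ,
    16 * (d : ℝ) ^ (4 / 3 : ℝ) ≤ k * 2 ^ k → expectedEmpty d k ≤ Real.exp (-(d / 2)) := by
  have hl1 : ∀ᶠ d : ℕ in atTop, (5 + 2 * Real.log d) < (d : ℝ) ^ (1 / 3 : ℝ) := by
    have h1 : Tendsto (fun x : ℝ => (5 + 2 * Real.log x) / x ^ (1 / 3 : ℝ)) atTop (𝓝 0) := by
      have ha : Tendsto (fun x : ℝ => 5 / x ^ (1 / 3 : ℝ)) atTop (𝓝 0) :=
        (tendsto_rpow_atTop (by norm_num : (0 : ℝ) < 1 / 3)).const_div_atTop 5
      have hb : Tendsto (fun x : ℝ => Real.log x / x ^ (1 / 3 : ℝ)) atTop (𝓝 0) :=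
        (isLittleO_log_rpow_atTop (by norm_num : (0 : ℝ) < 1 / 3)).tendsto_div_nhds_zero
      have := ha.add (hb.const_mul 2)
      simp only [mul_zero, add_zero] at this
      refine this.congr fun x => ?_
      ring
    have h2 := (h1.comp tendsto_natCast_atTop_atTop).eventually_lt_const
      (show (0 : ℝ) < 1 by norm_num)
    filter_upwards [h2, eventually_ge_atTop 1] with d hd hd1
    have hpos : (0 : ℝ) < (d : ℝ) ^ (1 / 3 : ℝ) := by
      apply Real.rpow_pos_of_pos; exact_mod_cast hd1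
    simp only [Function.comp] at hd
    rwa [div_lt_one hpos] at hd
  have hl2 : ∀ᶠ d : ℕ in atTop, Real.log d ≤ (d : ℝ) / 10 - 1 := by
    have hb : Tendsto (fun x : ℝ => (1 + Real.log x) / x ^ (1 : ℝ)) atTop (𝓝 0) := by
      have ha : Tendsto (fun x : ℝ => 1 / x ^ (1 : ℝ)) atTop (𝓝 0) :=
        (tendsto_rpow_atTop (by norm_num : (0 : ℝ) < 1)).const_div_atTop 1
      have hb : Tendsto (fun x : ℝ => Real.log x / x ^ (1 : ℝ)) atTop (𝓝 0) :=
        (isLittleO_log_rpow_atTop (by norm_num : (0 : ℝ) < 1)).tendsto_div_nhds_zero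
      have := ha.add hb
      simp only [add_zero] at this
      refine this.congr fun x => ?_
      ring
    have h2 := (hb.comp tendsto_natCast_atTop_atTop).eventually_lt_const
      (show (0 : ℝ) < 1 / 10 by norm_num)
    filter_upwards [h2, eventually_ge_atTop 1] with d hd hd1
    have hpos : (0 : ℝ) < (d : ℝ) := by exact_mod_cast hd1
    simp only [Function.comp, Real.rpow_one] at hd
    rw [div_lt_iff₀ hpos] at hd
    linarith
  filter_upwards [hl1, hl2, eventually_ge_atTop 64] with d hd1 hd2 hd3 k hk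
  have hd : (64 : ℝ) ≤ d := by exact_mod_cast hd3
  have hdpos : (0 : ℝ) < d := by linarith
  have hlogpos : 0 ≤ Real.log d := Real.log_nonneg (by linarith)
  by_cases hkd : d < k
  · -- no subcubes
    have h0 : expectedEmpty d k = 0 := by
      rw [expectedEmpty_eq]
      apply Finset.sum_eq_zero
      intro c hc
      exfalso
      have h1 := (mem_filter.1 hc).2
      have h2 : dim c ≤ d := by
        unfold dim
        refine (card_le_univ _).trans ?_
        rw [Fintype.card_fin]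
      omega
    rw [h0]; exact (Real.exp_pos _).le
  push Not at hkd
  -- the dimension is large
  have h16 : (16 : ℝ) * d ≤ 2 ^ k := by
    by_contra hcon
    push Not at hcon
    have hkl : (k : ℝ) < 5 + 2 * Real.log d := by
      have h1 : (k : ℝ) * Real.log 2 < Real.log (16 * d) := by
        rw [← Real.log_pow]
        exact Real.log_lt_log (by positivity) hcon
      rw [Real.log_mul (by norm_num) hdpos.ne'] at h1
      have h16 : Real.log 16 = 4 * Real.log 2 := by
        rw [show (16 : ℝ) = 2 ^ (4 : ℕ) by norm_num, Real.log_pow]; norm_num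
      rw [h16] at h1
      have hl2' := Real.log_two_gt_d9
      by_contra hcon2
      push Not at hcon2
      nlinarith
    have h2 : (k : ℝ) * 2 ^ k < (d : ℝ) ^ (1 / 3 : ℝ) * (16 * d) := by
      have hk0 : (0 : ℝ) ≤ k := Nat.cast_nonneg _
      calc (k : ℝ) * 2 ^ k ≤ k * (16 * d) := mul_le_mul_of_nonneg_left hcon.le hk0
        _ < (d : ℝ) ^ (1 / 3 : ℝ) * (16 * d) := by
            refine mul_lt_mul_of_pos_right (hkl.trans hd1) (by positivity)
    have h3 : (d : ℝ) ^ (1 / 3 : ℝ) * (16 * d) = 16 * (d : ℝ) ^ (4 / 3 : ℝ) := by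
      rw [show (4 / 3 : ℝ) = 1 / 3 + 1 by norm_num, Real.rpow_add hdpos, Real.rpow_one]; ring
    linarith
  have hk2 : 2 ≤ k := by
    by_contra hcon
    push Not at hcon
    have : (2 : ℝ) ^ k ≤ 2 ^ 1 := pow_le_pow_right₀ (by norm_num) (by omega)
    linarith
  have hpow4 : (2 : ℝ) ^ k = 4 * 2 ^ (k - 2) := by
    conv_lhs => rw [show k = (k - 2) + 2 by omega, pow_add]
    ring
  set m : ℕ := 2 ^ (k - 2) with hm
  have hmr : (m : ℝ) = 2 ^ (k - 2) := by rw [hm]; push_cast; rfl
  have hm4 : 4 * (d : ℝ) ≤ m := by rw [hmr]; linarith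
  -- the threshold
  set t : ℝ := (1 / 2) * (d : ℝ) ^ (-(1 / 3) : ℝ) with ht
  have hrp : 0 < (d : ℝ) ^ (-(1 / 3) : ℝ) := Real.rpow_pos_of_pos hdpos _
  have ht0 : 0 ≤ t := by positivity
  have hle1 : (d : ℝ) ^ (-(1 / 3) : ℝ) ≤ 1 :=
    Real.rpow_le_one_of_one_le_of_nonpos (by linarith) (by norm_num)
  have ht1 : t ≤ 1 := by rw [ht]; linarith
  have ht3 : 4 * ((d : ℝ) * t ^ 3) = 1 / 2 := by
    have : ((d : ℝ) ^ (-(1 / 3) : ℝ)) ^ 3 = (d : ℝ)⁻¹ := by
      rw [← Real.rpow_natCast, ← Real.rpow_mul hdpos.le]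
      norm_num
      rw [Real.rpow_neg_one]
    rw [ht, mul_pow, this]
    field_simp
    norm_num
  refine (expectedEmpty_le hk2 ht0 ht1).trans ?_
  rw [ht3, ← hm]
  -- first term
  have hA : (1 - t) ^ (k * m) ≤ Real.exp (-(2 * d)) := by
    have h1 : 1 - t ≤ Real.exp (-t) := by linarith [Real.add_one_le_exp (-t)]
    calc (1 - t) ^ (k * m) ≤ (Real.exp (-t)) ^ (k * m) :=
          pow_le_pow_left₀ (by linarith) h1 _
      _ = Real.exp (-(t * (k * m))) := by rw [← Real.exp_nat_mul]; push_cast; ring_nf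
      _ ≤ Real.exp (-(2 * d)) := by
          apply Real.exp_le_exp.2
          have h2 : 4 * (d : ℝ) ^ (4 / 3 : ℝ) ≤ k * m := by
            rw [hmr]
            have : (k : ℝ) * 2 ^ k = 4 * (k * 2 ^ (k - 2)) := by rw [hpow4]; ring
            linarith
          have h3 : t * (4 * (d : ℝ) ^ (4 / 3 : ℝ)) = 2 * d := by
            rw [ht]
            have : (d : ℝ) ^ (-(1 / 3) : ℝ) * (d : ℝ) ^ (4 / 3 : ℝ) = d := by
              rw [← Real.rpow_add hdpos]; norm_num
            calc _ = 2 * ((d : ℝ) ^ (-(1 / 3) : ℝ) * (d : ℝ) ^ (4 / 3 : ℝ)) := by ring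
              _ = 2 * d := by rw [this]
          have := mul_le_mul_of_nonneg_left h2 ht0
          linarith
  -- second term
  have hB : (k : ℝ) * (1 / 2) ^ m ≤ Real.exp (-(2 * d)) := by
    have hk1 : (k : ℝ) ≤ d := by exact_mod_cast hkd
    have h1 : ((1 : ℝ) / 2) ^ m = Real.exp (-(m * Real.log 2)) := by
      rw [one_div, inv_pow, Real.exp_neg, Real.exp_nat_mul, Real.exp_log (by norm_num)]
    have h2 : (d : ℝ) = Real.exp (Real.log d) := (Real.exp_log hdpos).symm
    calc (k : ℝ) * (1 / 2) ^ m ≤ d * (1 / 2) ^ m := mul_le_mul_of_nonneg_right hk1 (by positivity)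
      _ = Real.exp (Real.log d + -(m * Real.log 2)) := by rw [h1, Real.exp_add, ← h2]
      _ ≤ Real.exp (-(2 * d)) := by
          apply Real.exp_le_exp.2
          have := Real.log_two_gt_d9
          nlinarith
  have h3d : (3 : ℝ) ^ d ≤ Real.exp (1.1 * d) := by
    have h3 : (3 : ℝ) ≤ Real.exp 1.1 := by
      have h := Real.exp_one_gt_d9
      have h' : (1.1052 - 0.0052 : ℝ) ≤ Real.exp 0.1 := by
        have := Real.add_one_le_exp (0.1 : ℝ)
        linarith
      have h'' : (1.105 : ℝ) ≤ Real.exp 0.1 := by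
        have := Real.quadratic_le_exp_of_nonneg (show (0 : ℝ) ≤ 0.1 by norm_num)
        norm_num at this ⊢
        linarith
      rw [show (1.1 : ℝ) = 1 + 0.1 by norm_num, Real.exp_add]
      nlinarith
    calc (3 : ℝ) ^ d ≤ (Real.exp 1.1) ^ d := pow_le_pow_left₀ (by norm_num) h3 _
      _ = Real.exp (1.1 * d) := by rw [← Real.exp_nat_mul]; ring_nf
  calc (3 : ℝ) ^ d * ((1 - t) ^ (k * m) + k * (1 / 2) ^ m)
      ≤ Real.exp (1.1 * d) * (Real.exp (-(2 * d)) + Real.exp (-(2 * d))) := by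
        have : 0 ≤ 1 - t := by linarith
        apply mul_le_mul h3d (add_le_add hA hB) (by positivity) (Real.exp_pos _).le
    _ = 2 * Real.exp (-(0.9 * d)) := by
        rw [← two_mul, mul_left_comm, ← Real.exp_add]; ring_nf
    _ ≤ Real.exp 1 * Real.exp (-(0.9 * d)) := by
        refine mul_le_mul_of_nonneg_right ?_ (Real.exp_pos _).le
        have := Real.exp_one_gt_d9
        linarith
    _ = Real.exp (1 + -(0.9 * d)) := by rw [Real.exp_add]
    _ ≤ Real.exp (-(d / 2)) := by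
        apply Real.exp_le_exp.2
        linarith

end Pool.Agent.H97.Q2
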