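import Mathlib

/-!
# Uniform orderings and Bernoulli subsets
-/

open Finset

namespace Pool.Agent.H97.Q2

variable {α : Type*} [Fintype α] [DecidableEq α]

/-- The set of the first `m` elements of an ordering. -/
def firstSet (σ : Fin (Fintype.card α) ≃ α) (m : ℕ) : Finset α :=
  univ.filter fun e => ((σ.symm e : Fin _) : ℕ) < m

lemma mem_firstSet {σ : Fin (Fintype.card α) ≃ α} {m : ℕ} {e : α} :
    e ∈ firstSet σ m ↔ ((σ.symm e : Fin _) : ℕ) < m := by
  simp [firstSet]

lemma card_firstSet (σ : Fin (Fintype.card α) ≃ α) {m : ℕ} (hm : m ≤ Fintype.card α) :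
    (firstSet σ m).card = m := by
  have h1 : firstSet σ m = (univ.filter fun i : Fin (Fintype.card α) => (i : ℕ) < m).map
      σ.toEmbedding := by
    ext e
    simp only [mem_firstSet, mem_map, mem_filter, mem_univ, true_and, Equiv.coe_toEmbedding]
    constructor
    · intro h; exact ⟨σ.symm e, h, by simp⟩
    · rintro ⟨a, ha, rfl⟩; simpa using ha
  rw [h1, card_map]
  rw [Fin.card_filter_val_lt]
  omega

lemma firstSet_trans (σ : Fin (Fintype.card α) ≃ α) (π : Equiv.Perm α) (m : ℕ) :
    firstSet (σ.trans π) m = (firstSet σ m).map π.toEmbedding := by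
  ext e
  simp only [mem_firstSet, mem_map, Equiv.coe_toEmbedding]
  constructor
  · intro h; exact ⟨π.symm e, by simpa using h, by simp⟩
  · rintro ⟨a, ha, rfl⟩; simpa using ha

/-- The number of orderings whose first `m` elements form `S`. -/
def cnt (m : ℕ) (S : Finset α) : ℕ :=
  (univ.filter fun σ : Fin (Fintype.card α) ≃ α => firstSet σ m = S).card

lemma cnt_map (m : ℕ) (S : Finset α) (π : Equiv.Perm α) :
    cnt m (S.map π.toEmbedding) = cnt m S := by
  symm
  unfold cnt
  refine Finset.card_bij' (fun σ _ => σ.trans π) (fun σ _ => σ.trans π.symm) ?_ ?_ ?_ ?_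
  · intro σ hσ
    simp only [mem_filter, mem_univ, true_and] at hσ ⊢
    rw [firstSet_trans, hσ]
  · intro σ hσ
    simp only [mem_filter, mem_univ, true_and] at hσ ⊢
    rw [firstSet_trans, hσ, Finset.map_map]
    convert Finset.map_refl
    ext; simp
  · intro σ _; ext; simp
  · intro σ _; ext; simp

lemma exists_perm {S T : Finset α} (h : S.card = T.card) :
    ∃ π : Equiv.Perm α, S.map π.toEmbedding = T := by
  let e : {x // x ∈ S} ≃ {x // x ∈ T} := Finset.equivOfCardEq h
  refine ⟨e.extendSubtype, ?_⟩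
  apply Finset.eq_of_subset_of_card_le
  · intro x hx
    obtain ⟨y, hy, rfl⟩ := Finset.mem_map.1 hx
    exact Equiv.extendSubtype_mem e y hy
  · rw [card_map, h]

lemma cnt_eq {m : ℕ} {S T : Finset α} (h : S.card = T.card) : cnt m S = cnt m T := by
  obtain ⟨π, rfl⟩ := exists_perm h
  rw [cnt_map]

lemma cnt_mul_choose {m : ℕ} {S : Finset α} (hS : S.card = m) :
    (Fintype.card α).choose m * cnt m S = Fintype.card (Fin (Fintype.card α) ≃ α) := by
  have hm : m ≤ Fintype.card α := by rw [← hS]; exact card_le_univ S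
  have h1 : Fintype.card (Fin (Fintype.card α) ≃ α) =
      ∑ T ∈ powersetCard m (univ : Finset α), cnt m T := by
    rw [← card_univ]
    exact card_eq_sum_card_fiberwise (f := fun σ => firstSet σ m) (fun σ _ => by
      rw [mem_coe, mem_powersetCard]
      exact ⟨subset_univ _, card_firstSet σ hm⟩)
  rw [h1, Finset.sum_congr rfl (fun T hT => cnt_eq (m := m) (S := T) (T := S)
    ((mem_powersetCard.1 hT).2.trans hS.symm)), sum_const, card_powersetCard, card_univ, smul_eq_mul]

/-- The weight of `S` as a `t`-random subset. -/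
noncomputable def wt (t : ℝ) (S : Finset α) : ℝ := t ^ S.card * (1 - t) ^ (Fintype.card α - S.card)

lemma wt_nonneg {t : ℝ} (h0 : 0 ≤ t) (h1 : t ≤ 1) (S : Finset α) : 0 ≤ wt t S :=
  mul_nonneg (pow_nonneg h0 _) (pow_nonneg (by linarith) _)

lemma sum_wt_eq (t : ℝ) (f : Finset α → ℝ) :
    (∑ S : Finset α, wt t S * f S) * (Fintype.card (Fin (Fintype.card α) ≃ α) : ℝ) =
      ∑ σ : Fin (Fintype.card α) ≃ α, ∑ m ∈ range (Fintype.card α + 1),
        ((Fintype.card α).choose m : ℝ) * (t ^ m * (1 - t) ^ (Fintype.card α - m)) *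
          f (firstSet σ m) := by
  rw [sum_comm, sum_mul]
  have h2 : ∀ S : Finset α, wt t S * f S * (Fintype.card (Fin (Fintype.card α) ≃ α) : ℝ) =
      ∑ m ∈ range (Fintype.card α + 1), if S.card = m then
        ((Fintype.card α).choose m : ℝ) * (t ^ m * (1 - t) ^ (Fintype.card α - m)) *
          (cnt m S * f S) else 0 := by
    intro S
    rw [Finset.sum_ite_eq, if_pos (by rw [mem_range]; exact Nat.lt_succ_of_le (card_le_univ S)),
      ← cnt_mul_choose (S := S) rfl]
    unfold wt
    push_cast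
    ring
  rw [Finset.sum_congr rfl fun S _ => h2 S, sum_comm]
  refine Finset.sum_congr rfl fun m hm => ?_
  rw [← mul_sum]
  have h3 : ∑ σ : Fin (Fintype.card α) ≃ α, f (firstSet σ m) =
      ∑ S : Finset α, if S.card = m then (cnt m S : ℝ) * f S else 0 := by
    rw [← Finset.sum_filter]
    have h4 : ∀ σ : Fin (Fintype.card α) ≃ α,
        firstSet σ m ∈ univ.filter fun S : Finset α => S.card = m := by
      intro σ
      simp only [mem_filter, mem_univ, true_and]
      exact card_firstSet σ (by simpa [Nat.lt_succ_iff] using hm)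
    rw [← Finset.sum_fiberwise_of_maps_to (g := fun σ => firstSet σ m) (fun σ _ => h4 σ)]
    refine Finset.sum_congr rfl fun S _ => ?_
    rw [Finset.sum_congr rfl (g := fun _ => f S) (fun σ hσ => by
      rw [(mem_filter.1 hσ).2]), sum_const, nsmul_eq_mul]
    rfl
  rw [h3, mul_sum]
  refine Finset.sum_congr rfl fun S _ => ?_
  split_ifs <;> ring

lemma sum_choose_eq_one (t : ℝ) (n : ℕ) :
    ∑ m ∈ range (n + 1), (n.choose m : ℝ) * (t ^ m * (1 - t) ^ (n - m)) = 1 := by
  have h := add_pow t (1 - t) n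
  rw [show t + (1 - t) = 1 by ring, one_pow] at h
  refine Eq.trans ?_ h.symm
  exact Finset.sum_congr rfl fun m _ => by ring

lemma card_pos_equiv : (0 : ℝ) < (Fintype.card (Fin (Fintype.card α) ≃ α) : ℝ) := by
  have : Nonempty (Fin (Fintype.card α) ≃ α) := ⟨(Fintype.equivFin α).symm⟩
  exact_mod_cast Fintype.card_pos

theorem average_le {t : ℝ} (h0 : 0 ≤ t) (h1 : t ≤ 1) (f : Finset α → ℝ)
    (g : (Fin (Fintype.card α) ≃ α) → ℝ)
    (hg : ∀ σ, ∀ m ≤ Fintype.card α, g σ ≤ f (firstSet σ m)) :
    (∑ σ : Fin (Fintype.card α) ≃ α, g σ) / (Fintype.card (Fin (Fintype.card α) ≃ α) : ℝ) ≤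
      ∑ S : Finset α, wt t S * f S := by
  rw [div_le_iff₀ card_pos_equiv, sum_wt_eq]
  refine Finset.sum_le_sum fun σ _ => ?_
  calc g σ = ∑ m ∈ range (Fintype.card α + 1),
        ((Fintype.card α).choose m : ℝ) * (t ^ m * (1 - t) ^ (Fintype.card α - m)) * g σ := by
        rw [← sum_mul, sum_choose_eq_one, one_mul]
    _ ≤ _ := by
        refine Finset.sum_le_sum fun m hm => ?_
        refine mul_le_mul_of_nonneg_left (hg σ m (by simpa [Nat.lt_succ_iff] using hm)) ?_
        exact mul_nonneg (Nat.cast_nonneg _) (mul_nonneg (pow_nonneg h0 _)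
          (pow_nonneg (by linarith) _))

theorem le_average {t : ℝ} (h0 : 0 ≤ t) (h1 : t ≤ 1) (f : Finset α → ℝ)
    (g : (Fin (Fintype.card α) ≃ α) → ℝ)
    (hg : ∀ σ, ∀ m ≤ Fintype.card α, f (firstSet σ m) ≤ g σ) :
    ∑ S : Finset α, wt t S * f S ≤
    (∑ σ : Fin (Fintype.card α) ≃ α, g σ) / (Fintype.card (Fin (Fintype.card α) ≃ α) : ℝ) := by
  rw [le_div_iff₀ card_pos_equiv, sum_wt_eq]
  refine Finset.sum_le_sum fun σ _ => ?_
  calc _ ≤ ∑ m ∈ range (Fintype.card α + 1),
        ((Fintype.card α).choose m : ℝ) * (t ^ m * (1 - t) ^ (Fintype.card α - m)) * g σ := by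
        refine Finset.sum_le_sum fun m hm => ?_
        refine mul_le_mul_of_nonneg_left (hg σ m (by simpa [Nat.lt_succ_iff] using hm)) ?_
        exact mul_nonneg (Nat.cast_nonneg _) (mul_nonneg (pow_nonneg h0 _)
          (pow_nonneg (by linarith) _))
    _ = g σ := by
        rw [← sum_mul, sum_choose_eq_one, one_mul]

lemma wt_eq_prod (t : ℝ) (S : Finset α) :
    wt t S = (∏ _e ∈ S, t) * ∏ _e ∈ univ \ S, (1 - t) := by
  unfold wt
  rw [prod_const, prod_const, card_sdiff_of_subset (subset_univ S), card_univ]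

/-- The probability that a `t`-random set contains `F` and avoids `N`. -/
theorem sum_wt_superset {t : ℝ} {F N : Finset α} (h : Disjoint F N) :
    ∑ S : Finset α, wt t S * (if F ⊆ S ∧ Disjoint N S then 1 else 0) =
      t ^ F.card * (1 - t) ^ N.card := by
  have h1 := Finset.prod_add (fun e => if e ∈ N then 0 else t)
    (fun e => if e ∈ F then 0 else 1 - t) (univ : Finset α)
  have h2 : ∀ S : Finset α, wt t S * (if F ⊆ S ∧ Disjoint N S then 1 else 0) =
      (∏ e ∈ S, if e ∈ N then 0 else t) * ∏ e ∈ univ \ S, if e ∈ F then 0 else 1 - t := by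
    intro S
    split_ifs with hS
    · rw [wt_eq_prod, mul_one]
      congr 1
      · refine Finset.prod_congr rfl fun e he => ?_
        rw [if_neg fun hN => (Finset.disjoint_left.1 hS.2 hN he)]
      · refine Finset.prod_congr rfl fun e he => ?_
        rw [if_neg fun hF => (mem_sdiff.1 he).2 (hS.1 hF)]
    · rw [mul_zero]
      symm
      rw [not_and_or] at hS
      rcases hS with hS | hS
      · obtain ⟨e, he, heS⟩ := Finset.not_subset.1 hS
        rw [Finset.prod_eq_zero (s := univ \ S) (i := e) (by simp [heS]) (by simp [he]), mul_zero]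
      · obtain ⟨e, he, heS⟩ := Finset.not_disjoint_iff.1 hS
        rw [Finset.prod_eq_zero (i := e) heS (by simp [he]), zero_mul]
  rw [Finset.sum_congr rfl fun S _ => h2 S]
  rw [show (univ : Finset (Finset α)) = (univ : Finset α).powerset by
    ext; simp, ← h1]
  have h3 : ∀ e : α, ((if e ∈ N then 0 else t) + (if e ∈ F then 0 else 1 - t)) =
      (if e ∈ F then t else 1) * (if e ∈ N then 1 - t else 1) := by
    intro e
    by_cases hF : e ∈ F
    · have hN : e ∉ N := Finset.disjoint_left.1 h hF
      simp [hF, hN]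
    · by_cases hN : e ∈ N <;> simp [hF, hN]
  rw [Finset.prod_congr rfl fun e _ => h3 e, prod_mul_distrib, Finset.prod_ite_mem,
    Finset.prod_ite_mem, univ_inter, univ_inter, prod_const, prod_const]

theorem sum_wt_subset (t : ℝ) (F : Finset α) :
    ∑ S : Finset α, wt t S * (if F ⊆ S then 1 else 0) = t ^ F.card := by
  have := sum_wt_superset (t := t) (F := F) (N := ∅) (by simp)
  simpa using this

theorem sum_wt (t : ℝ) : ∑ S : Finset α, wt t S = 1 := by
  have := sum_wt_subset (α := α) t ∅
  simpa using this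

/-- Inside/outside: the inside part must be contained in a set determined by the outside part,
which misses at least `r` elements of the inside. -/
theorem sum_wt_inside {t : ℝ} (h0 : 0 ≤ t) (h1 : t ≤ 1) (A : Finset α)
    (D : Finset α → Finset α) (r : ℕ) :
    ∑ S : Finset α, wt t S * (if S ∩ A ⊆ D (S \ A) ∧ r ≤ (A \ D (S \ A)).card then 1 else 0) ≤
      (1 - t) ^ r := by
  have h1t : 0 ≤ 1 - t := by linarith
  have hsplit : ∀ f : Finset α → ℝ, ∑ S : Finset α, f S =
      ∑ S₂ ∈ (univ \ A).powerset, ∑ S₁ ∈ A.powerset, f (S₁ ∪ S₂) := by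
    intro f
    rw [← Finset.sum_product']
    symm
    refine Finset.sum_bij' (fun p _ => p.2 ∪ p.1) (fun S _ => (S \ A, S ∩ A)) ?_ ?_ ?_ ?_ ?_
    · intro p _; exact mem_univ _
    · intro S _
      simp only [mem_product, mem_powerset]
      exact ⟨sdiff_subset_sdiff (subset_univ _) le_rfl, inter_subset_right⟩
    · rintro ⟨a, b⟩ hp
      simp only [mem_product, mem_powerset] at hp
      obtain ⟨ha, hb⟩ := hp
      simp only [Prod.mk.injEq]
      constructor
      · ext x
        simp only [mem_sdiff, mem_union]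
        constructor
        · rintro ⟨h | h, h'⟩
          · exact absurd (hb h) h'
          · exact h
        · intro h; exact ⟨Or.inr h, (mem_sdiff.1 (ha h)).2⟩
      · ext x
        simp only [mem_inter, mem_union]
        constructor
        · rintro ⟨h | h, h'⟩
          · exact h
          · exact absurd h' (mem_sdiff.1 (ha h)).2
        · intro h; exact ⟨Or.inl h, hb h⟩
    · intro S _
      ext x
      simp only [mem_union, mem_inter, mem_sdiff]
      tauto
    · intro p _; rfl
  rw [hsplit]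
  have hkey : ∀ S₂ ∈ (univ \ A).powerset, ∀ S₁ ∈ A.powerset,
      wt t (S₁ ∪ S₂) * (if (S₁ ∪ S₂) ∩ A ⊆ D ((S₁ ∪ S₂) \ A) ∧
        r ≤ (A \ D ((S₁ ∪ S₂) \ A)).card then 1 else 0) =
      (t ^ S₂.card * (1 - t) ^ ((univ \ A).card - S₂.card)) *
        ((t ^ S₁.card * (1 - t) ^ (A.card - S₁.card)) * (if S₁ ⊆ D S₂ ∧
        r ≤ (A \ D S₂).card then 1 else 0)) := by
    intro S₂ hS₂ S₁ hS₁
    rw [mem_powerset] at hS₂ hS₁
    have hd : Disjoint S₁ S₂ := by
      rw [Finset.disjoint_left]
      intro x hx hx'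
      exact (mem_sdiff.1 (hS₂ hx')).2 (hS₁ hx)
    have e1 : (S₁ ∪ S₂) ∩ A = S₁ := by
      ext x
      simp only [mem_inter, mem_union]
      constructor
      · rintro ⟨h | h, h'⟩
        · exact h
        · exact absurd h' (mem_sdiff.1 (hS₂ h)).2
      · intro h; exact ⟨Or.inl h, hS₁ h⟩
    have e2 : (S₁ ∪ S₂) \ A = S₂ := by
      ext x
      simp only [mem_sdiff, mem_union]
      constructor
      · rintro ⟨h | h, h'⟩
        · exact absurd (hS₁ h) h'
        · exact h
      · intro h; exact ⟨Or.inr h, (mem_sdiff.1 (hS₂ h)).2⟩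
    rw [e1, e2]
    unfold wt
    have hc : (univ \ A).card = Fintype.card α - A.card := by
      rw [card_sdiff_of_subset (subset_univ A), card_univ]
    have hc1 : S₁.card ≤ A.card := card_le_card hS₁
    have hc2 : S₂.card ≤ Fintype.card α - A.card := hc ▸ card_le_card hS₂
    have hc3 : A.card ≤ Fintype.card α := card_le_univ A
    rw [card_union_of_disjoint hd, hc, show Fintype.card α - (S₁.card + S₂.card) =
      (A.card - S₁.card) + (Fintype.card α - A.card - S₂.card) by omega, pow_add, pow_add]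
    ring
  rw [Finset.sum_congr rfl fun S₂ hS₂ => Finset.sum_congr rfl (hkey S₂ hS₂)]
  have hin : ∀ S₂ ∈ (univ \ A).powerset, ∑ S₁ ∈ A.powerset,
      (t ^ S₂.card * (1 - t) ^ ((univ \ A).card - S₂.card)) *
        ((t ^ S₁.card * (1 - t) ^ (A.card - S₁.card)) * (if S₁ ⊆ D S₂ ∧
        r ≤ (A \ D S₂).card then 1 else 0)) ≤
      (t ^ S₂.card * (1 - t) ^ ((univ \ A).card - S₂.card)) * (1 - t) ^ r := by
    intro S₂ _
    rw [← mul_sum]
    refine mul_le_mul_of_nonneg_left ?_ (mul_nonneg (pow_nonneg h0 _) (pow_nonneg h1t _))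
    by_cases hr : r ≤ (A \ D S₂).card
    · calc ∑ S₁ ∈ A.powerset, (t ^ S₁.card * (1 - t) ^ (A.card - S₁.card)) *
            (if S₁ ⊆ D S₂ ∧ r ≤ (A \ D S₂).card then 1 else 0)
          = ∑ S₁ ∈ A.powerset, (if S₁ ⊆ D S₂ then
              (t ^ S₁.card * (1 - t) ^ (A.card - S₁.card)) else 0) := by
            refine Finset.sum_congr rfl fun S₁ _ => ?_
            simp [hr]
        _ = ∑ S₁ ∈ (A ∩ D S₂).powerset, t ^ S₁.card * (1 - t) ^ (A.card - S₁.card) := by
            rw [← Finset.sum_filter]
            refine Finset.sum_congr ?_ fun _ _ => rfl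
            ext x
            simp only [mem_filter, mem_powerset, subset_inter_iff]
        _ = ∑ S₁ ∈ (A ∩ D S₂).powerset, (1 - t) ^ (A \ D S₂).card *
              (t ^ S₁.card * (1 - t) ^ ((A ∩ D S₂).card - S₁.card)) := by
            refine Finset.sum_congr rfl fun S₁ hS₁ => ?_
            have hle := card_le_card (mem_powerset.1 hS₁)
            have hAc : (A ∩ D S₂).card + (A \ D S₂).card = A.card :=
              card_inter_add_card_sdiff A (D S₂)
            rw [show A.card - S₁.card = (A \ D S₂).card + ((A ∩ D S₂).card - S₁.card) by omega,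
              pow_add]
            ring
        _ = (1 - t) ^ (A \ D S₂).card := by
            rw [← mul_sum, Finset.sum_pow_mul_eq_add_pow]
            simp
        _ ≤ (1 - t) ^ r := pow_le_pow_of_le_one h1t (by linarith) hr
    · simp only [hr, and_false, if_false, mul_zero, sum_const_zero]
      exact pow_nonneg h1t _
  refine (Finset.sum_le_sum hin).trans ?_
  rw [← sum_mul, Finset.sum_pow_mul_eq_add_pow]
  simp

end Pool.Agent.H97.Q2
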