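import Pool.Agent.H97.Q2.Faces

/-!
# The second moment argument
-/

open Finset

namespace Pool.Agent.H97.Q2

variable {d : ℕ} {c : Subcube d}

lemma ind_nonneg (p : Prop) [Decidable p] : (0 : ℝ) ≤ if p then 1 else 0 := by
  split_ifs
  · exact zero_le_one
  · exact le_rfl

/-- The faces through chosen edges which avoid the edges of `c`. -/
def threats (c : Subcube d) (J : {e // e ∈ inEdges c} → Fin d) : Finset (Edge d × Fin d) :=
  (TT c J ×ˢ univ).filter fun p => p.1.1 p.2 ≠ none ∧ Disjoint (triple p.1 p.2) (inEdges c)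

/-- The sets of edges which must not be contained in the set of early edges. -/
def avoid : Edge d ⊕ Edge d × Fin d → Finset (Edge d) :=
  Sum.elim (fun e => {e}) (fun p => triple p.1 p.2)

/-- The event that the chosen edges are early, and that none of the sets to be avoided is. -/
def Ev (c : Subcube d) (J : {e // e ∈ inEdges c} → Fin d) (S : Finset (Edge d)) : Prop :=
  TT c J ⊆ S ∧ ∀ i ∈ (inEdges c).disjSum (threats c J), ¬ avoid i ⊆ S

instance (c : Subcube d) (J : {e // e ∈ inEdges c} → Fin d) (S : Finset (Edge d)) :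
    Decidable (Ev c J S) := by unfold Ev; infer_instance

lemma empty_of_Ev {J : {e // e ∈ inEdges c} → Fin d} (hJ : Nice c J)
    {σ : Fin (numEdges d) ≃ Edge d} {m : ℕ} (h : Ev c J (firstSet σ m)) :
    IsEmptyIn c (finalGraph σ) := by
  obtain ⟨h1, h2⟩ := h
  have hE : ∀ e ∈ inEdges c, e ∉ firstSet σ m := by
    intro e he he'
    refine h2 (Sum.inl e) (inl_mem_disjSum.2 he) ?_
    simp only [avoid, Sum.elim_inl, singleton_subset_iff]
    exact he'
  have hT : TT c J ⊆ finalGraph σ := by
    intro f hf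
    by_contra hcon
    obtain ⟨l, hl, hall⟩ := exists_of_notMem_final hcon
    have hsub : triple f l ⊆ firstSet σ m := by
      intro x hx
      rw [mem_firstSet]
      exact (Fin.lt_def.1 (hall x hx).2).trans (mem_firstSet.1 (h1 hf))
    refine h2 (Sum.inr (f, l)) (inr_mem_disjSum.2 ?_) hsub
    simp only [threats, mem_filter, mem_product, mem_univ, and_true]
    refine ⟨hf, hl, ?_⟩
    rw [Finset.disjoint_left]
    exact fun x hx hx' => hE x hx' (hsub hx)
  intro e he hmem
  have hin : e ∈ inEdges c := mem_inEdges.2 he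
  have hj : e.1 (J ⟨e, hin⟩) ≠ none := by
    rw [he _ (hJ.1 _)]; exact hJ.1 _
  obtain ⟨x, hx, hx'⟩ := finalGraph_free σ (Function.update e.1 (J ⟨e, hin⟩) none)
    (by rw [dim_update_none hj, e.2])
  by_cases hxe : x = e
  · exact hx' (hxe ▸ hmem)
  · exact hx' (hT (mem_TT.2 ⟨⟨e, hin⟩, mem_triple.2 ⟨hxe, hx⟩⟩))

lemma prob_Ev_ge {J : {e // e ∈ inEdges c} → Fin d} (hJ : Nice c J) {t : ℝ} (h0 : 0 < t)
    (h1 : t ≤ 1) :
    (t ^ 3 * ((1 - t) * ((1 - t) ^ (3 * dim c) * (1 - t ^ 3) ^ d) ^ 3)) ^ (inEdges c).card ≤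
      ∑ S : Finset (Edge d), wt t S * (if Ev c J S then 1 else 0) := by
  classical
  have ht : 0 ≤ 1 - t := by linarith
  have ht3 : 0 ≤ 1 - t ^ 3 := by
    have : t ^ 3 ≤ 1 := pow_le_one₀ h0.le h1
    linarith
  refine le_trans ?_ (harris_lower h0 h1 (TT c J) ((inEdges c).disjSum (threats c J)) avoid)
  have hcard := hJ.card_TT
  have hprod : ∏ i ∈ (inEdges c).disjSum (threats c J), (1 - t ^ (avoid i \ TT c J).card) =
      (∏ e ∈ inEdges c, (1 - t)) * ∏ f ∈ TT c J, ∏ l : Fin d,
        (if f.1 l ≠ none ∧ Disjoint (triple f l) (inEdges c) then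
          1 - t ^ (triple f l \ TT c J).card else 1) := by
    rw [Finset.prod_disjSum]
    congr 1
    · refine Finset.prod_congr rfl fun e he => ?_
      have : e ∉ TT c J := fun h => Finset.disjoint_left.1 (disjoint_TT_inEdges hJ) h he
      have h2 : (avoid (Sum.inl e : Edge d ⊕ Edge d × Fin d) \ TT c J) = {e} := by
        simp only [avoid, Sum.elim_inl]
        rw [Finset.sdiff_eq_self_iff_disjoint]
        simpa using this
      rw [h2, card_singleton, pow_one]
    · unfold threats
      rw [Finset.prod_filter, Finset.prod_product]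
      rfl
  rw [hprod]
  have hone : ∀ f ∈ TT c J, (1 - t) ^ (3 * dim c) * (1 - t ^ 3) ^ d ≤ ∏ l : Fin d,
        (if f.1 l ≠ none ∧ Disjoint (triple f l) (inEdges c) then
          1 - t ^ (triple f l \ TT c J).card else 1) := by
    intro f hf
    obtain ⟨e, he⟩ := mem_TT.1 hf
    set M : Finset (Fin d) := free c ∪
      (univ.filter fun e'' : {e // e ∈ inEdges c} => Compat e''.1 e.1).image J with hM
    have hMcard : M.card ≤ 3 * dim c := by
      refine (card_union_le _ _).trans ?_
      have h2 := card_compat_le e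
      have h3 : ((univ.filter fun e'' : {e // e ∈ inEdges c} => Compat e''.1 e.1).image J).card ≤
        2 * dim c := card_image_le.trans h2
      rw [card_free]
      omega
    calc (1 - t) ^ (3 * dim c) * (1 - t ^ 3) ^ d
        ≤ (1 - t) ^ M.card * (1 - t ^ 3) ^ d :=
          mul_le_mul_of_nonneg_right (pow_le_pow_of_le_one ht (by linarith) hMcard)
            (pow_nonneg ht3 _)
      _ = ∏ l : Fin d, ((if l ∈ M then 1 - t else 1) * (1 - t ^ 3)) := by
          rw [prod_mul_distrib, Finset.prod_ite_mem, univ_inter, prod_const, prod_const, card_univ,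
            Fintype.card_fin]
      _ ≤ _ := by
          refine Finset.prod_le_prod (fun l _ => ?_) fun l _ => ?_
          · split_ifs
            · exact mul_nonneg ht ht3
            · rw [one_mul]; exact ht3
          · split_ifs with hlM hcond hcond
            · obtain ⟨hn, _⟩ := threat hJ he hcond.1 hcond.2
              have hpos : 1 ≤ (triple f l \ TT c J).card := by
                rw [Nat.one_le_iff_ne_zero, Ne, card_eq_zero, sdiff_eq_empty_iff_subset]
                exact hn
              have : t ^ (triple f l \ TT c J).card ≤ t ^ 1 :=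
                pow_le_pow_of_le_one h0.le h1 hpos
              rw [pow_one] at this
              calc (1 - t) * (1 - t ^ 3) ≤ (1 - t) * 1 :=
                    mul_le_mul_of_nonneg_left (by linarith [pow_nonneg h0.le 3]) ht
                _ ≤ _ := by linarith
            · calc (1 - t) * (1 - t ^ 3) ≤ 1 * 1 :=
                    mul_le_mul (by linarith) (by linarith [pow_nonneg h0.le 3]) ht3 zero_le_one
                _ = 1 := one_mul 1
            · obtain ⟨_, hn⟩ := threat hJ he hcond.1 hcond.2
              have hemp : triple f l ∩ TT c J = ∅ := by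
                by_contra h
                exact hlM (hn (Finset.nonempty_iff_ne_empty.2 h))
              have h3 : triple f l \ TT c J = triple f l := by
                rw [Finset.sdiff_eq_self_iff_disjoint, Finset.disjoint_iff_inter_eq_empty]
                exact hemp
              rw [h3, card_triple hcond.1, one_mul]
            · rw [one_mul]; linarith [pow_nonneg h0.le 3]
  calc (t ^ 3 * ((1 - t) * ((1 - t) ^ (3 * dim c) * (1 - t ^ 3) ^ d) ^ 3)) ^ (inEdges c).card
      = t ^ (TT c J).card * ((∏ _e ∈ inEdges c, (1 - t)) *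
        ∏ _f ∈ TT c J, ((1 - t) ^ (3 * dim c) * (1 - t ^ 3) ^ d)) := by
        rw [prod_const, prod_const, hcard, mul_pow, mul_pow (1 - t), ← pow_mul, ← pow_mul]
    _ ≤ _ := by
        refine mul_le_mul_of_nonneg_left ?_ (pow_nonneg h0.le _)
        refine mul_le_mul_of_nonneg_left ?_ (Finset.prod_nonneg fun _ _ => ht)
        exact Finset.prod_le_prod (fun _ _ => mul_nonneg (pow_nonneg ht _) (pow_nonneg ht3 _)) hone

/-- The directions fixed in `c`. -/
def outDirs (c : Subcube d) : Finset (Fin d) := univ.filter fun j => c j ≠ none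

lemma card_outDirs (c : Subcube d) : (outDirs c).card + dim c = d := by
  have h := Finset.card_filter_add_card_filter_not (s := (univ : Finset (Fin d)))
    (fun j => c j = none)
  rw [card_univ, Fintype.card_fin] at h
  unfold outDirs dim
  rw [add_comm]
  exact h

open Classical in
/-- The set of proper choices. -/
noncomputable def niceSet (c : Subcube d) : Finset ({e // e ∈ inEdges c} → Fin d) :=
  univ.filter fun J => Nice c J

lemma mem_niceSet {J : {e // e ∈ inEdges c} → Fin d} : J ∈ niceSet c ↔ Nice c J := by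
  simp [niceSet]

lemma card_niceSet_ge (c : Subcube d) :
    (d - 3 * dim c) ^ (inEdges c).card ≤ (niceSet c).card := by
  classical
  have h := card_proper_ge (V := {e // e ∈ inEdges c}) (outDirs c) (fun u v => Compat u.1 v.1)
    (fun u v h => h.symm) (2 * dim c) (fun v => card_compat_le v)
  rw [Fintype.card_coe] at h
  have h2 := card_outDirs c
  refine le_trans ?_ (h.trans (card_le_card ?_))
  · exact Nat.pow_le_pow_left (by omega) _
  · intro J hJ
    rw [mem_filter, Fintype.mem_piFinset] at hJ
    rw [mem_niceSet]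
    refine ⟨fun e => ?_, hJ.2⟩
    exact (mem_filter.1 (hJ.1 e)).2

lemma second_moment {J : {e // e ∈ inEdges c} → Fin d} (hJ : Nice c J) {t : ℝ} (h0 : 0 < t)
    (h1 : t ≤ 1) :
    ∑ J' ∈ niceSet c, ∑ S : Finset (Edge d), wt t S *
      ((if Ev c J S then 1 else 0) * (if Ev c J' S then 1 else 0)) ≤
      (t ^ 6 * (d + 2 * dim c * (1 / t) ^ 2 + (1 / t) ^ 3)) ^ (inEdges c).card := by
  classical
  have h1t : 1 ≤ 1 / t := by rw [le_div_iff₀ h0]; linarith
  have hJ' : ∀ J' ∈ niceSet c, ∑ S : Finset (Edge d), wt t S *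
      ((if Ev c J S then 1 else 0) * (if Ev c J' S then 1 else 0)) ≤
      t ^ (6 * (inEdges c).card) * ∏ e' : {e // e ∈ inEdges c},
        (1 / t) ^ (triple e'.1 (J' e') ∩ TT c J).card := by
    intro J' hJ'
    have hn := mem_niceSet.1 hJ'
    calc _ ≤ ∑ S : Finset (Edge d), wt t S * (if TT c J ∪ TT c J' ⊆ S then 1 else 0) := by
          refine Finset.sum_le_sum fun S _ => mul_le_mul_of_nonneg_left ?_ (wt_nonneg h0.le h1 S)
          by_cases hS : Ev c J S
          · by_cases hS' : Ev c J' S
            · rw [if_pos hS, if_pos hS', if_pos (union_subset hS.1 hS'.1), one_mul]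
            · rw [if_neg hS', mul_zero]; exact ind_nonneg _
          · rw [if_neg hS, zero_mul]; exact ind_nonneg _
      _ = t ^ (TT c J ∪ TT c J').card := sum_wt_subset t _
      _ = t ^ (6 * (inEdges c).card) * (1 / t) ^ (TT c J' ∩ TT c J).card := by
          have h2 := card_union_add_card_inter (TT c J) (TT c J')
          rw [hJ.card_TT, hn.card_TT] at h2
          rw [inter_comm]
          have h3 : 6 * (inEdges c).card = (TT c J ∪ TT c J').card + (TT c J ∩ TT c J').card := by
            omega
          rw [h3, pow_add, mul_assoc, ← mul_pow, mul_one_div_cancel h0.ne', one_pow, mul_one]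
      _ ≤ _ := by
          refine mul_le_mul_of_nonneg_left ?_ (pow_nonneg h0.le _)
          rw [Finset.prod_pow_eq_pow_sum]
          refine pow_le_pow_right₀ h1t ?_
          unfold TT
          rw [biUnion_inter]
          exact card_biUnion_le
  refine (Finset.sum_le_sum hJ').trans ?_
  rw [← mul_sum]
  have hsub : niceSet c ⊆ Fintype.piFinset fun _ : {e // e ∈ inEdges c} => outDirs c := by
    intro J' hJ'
    rw [Fintype.mem_piFinset]
    intro e
    simpa [outDirs] using (mem_niceSet.1 hJ').1 e
  have h2 : ∑ J' ∈ niceSet c, ∏ e' : {e // e ∈ inEdges c},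
        (1 / t) ^ (triple e'.1 (J' e') ∩ TT c J).card ≤
      ∏ e' : {e // e ∈ inEdges c}, ∑ j' ∈ outDirs c, (1 / t) ^ (triple e'.1 j' ∩ TT c J).card := by
    rw [Finset.prod_univ_sum]
    exact Finset.sum_le_sum_of_subset_of_nonneg hsub fun _ _ _ =>
      Finset.prod_nonneg fun _ _ => by positivity
  have h3 : ∀ e' : {e // e ∈ inEdges c}, ∑ j' ∈ outDirs c,
      (1 / t) ^ (triple e'.1 j' ∩ TT c J).card ≤ d + 2 * dim c * (1 / t) ^ 2 + (1 / t) ^ 3 := by
    intro e'
    set M : Finset (Fin d) :=
      (univ.filter fun e : {e // e ∈ inEdges c} => Compat e.1 e'.1).image J with hM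
    have hMcard : M.card ≤ 2 * dim c := card_image_le.trans (card_compat_le e')
    have hpt : ∀ j' ∈ outDirs c, (1 / t) ^ (triple e'.1 j' ∩ TT c J).card ≤
        1 + (if j' ∈ M then (1 / t) ^ 2 else 0) + (if j' = J e' then (1 / t) ^ 3 else 0) := by
      intro j' hj'
      have hcj : c j' ≠ none := by simpa [outDirs] using hj'
      by_cases hjj : j' = J e'
      · rw [if_pos hjj]
        have h4 : (1 / t) ^ (triple e'.1 j' ∩ TT c J).card ≤ (1 / t) ^ 3 :=
          pow_le_pow_right₀ h1t ((card_le_card inter_subset_left).trans (card_triple_le _ _))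
        have h5 : (0 : ℝ) ≤ (if j' ∈ M then (1 / t) ^ 2 else 0) := by positivity
        linarith
      · rw [if_neg hjj, add_zero]
        obtain ⟨h6, h7⟩ := overlap hJ e' hcj hjj
        by_cases hne : (triple e'.1 j' ∩ TT c J).Nonempty
        · rw [if_pos (h7 hne)]
          have := pow_le_pow_right₀ h1t h6
          linarith
        · rw [Finset.not_nonempty_iff_eq_empty.1 hne, card_empty, pow_zero]
          have h5 : (0 : ℝ) ≤ (if j' ∈ M then (1 / t) ^ 2 else 0) := by positivity
          linarith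
    refine (Finset.sum_le_sum hpt).trans ?_
    rw [sum_add_distrib, sum_add_distrib, sum_const, nsmul_eq_mul, mul_one]
    have h8 : ∑ j' ∈ outDirs c, (if j' ∈ M then (1 / t) ^ 2 else 0) ≤
        2 * dim c * (1 / t) ^ 2 := by
      rw [Finset.sum_ite_mem, sum_const, nsmul_eq_mul]
      refine mul_le_mul_of_nonneg_right ?_ (by positivity)
      have : (outDirs c ∩ M).card ≤ 2 * dim c := (card_le_card inter_subset_right).trans hMcard
      exact_mod_cast this
    have h9 : ∑ j' ∈ outDirs c, (if j' = J e' then (1 / t) ^ 3 else 0) ≤ (1 / t) ^ 3 := by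
      rw [Finset.sum_ite_eq']
      split_ifs
      · exact le_rfl
      · positivity
    have h10 : ((outDirs c).card : ℝ) ≤ d := by
      have := card_outDirs c
      have : (outDirs c).card ≤ d := by omega
      exact_mod_cast this
    linarith
  calc t ^ (6 * (inEdges c).card) * ∑ J' ∈ niceSet c, ∏ e' : {e // e ∈ inEdges c},
        (1 / t) ^ (triple e'.1 (J' e') ∩ TT c J).card
      ≤ t ^ (6 * (inEdges c).card) * ∏ e' : {e // e ∈ inEdges c},
        (d + 2 * dim c * (1 / t) ^ 2 + (1 / t) ^ 3) := by
        refine mul_le_mul_of_nonneg_left (h2.trans ?_) (pow_nonneg h0.le _)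
        exact Finset.prod_le_prod (fun e' _ => Finset.sum_nonneg fun _ _ => by positivity)
          fun e' _ => h3 e'
    _ = _ := by
        rw [prod_const, card_univ, Fintype.card_coe, mul_pow, ← pow_mul]

/-- The second moment bound for the probability that the subcube `c` is empty. -/
theorem le_prob_second {t : ℝ} (h0 : 0 < t) (h1 : t ≤ 1) (c : Subcube d)
    (hd : 3 * dim c < d) :
    ((d - 3 * dim c : ℕ) : ℝ) ^ (inEdges c).card *
      (t ^ 3 * ((1 - t) * ((1 - t) ^ (3 * dim c) * (1 - t ^ 3) ^ d) ^ 3)) ^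
        (2 * (inEdges c).card) ≤
      (t ^ 6 * (d + 2 * dim c * (1 / t) ^ 2 + (1 / t) ^ 3)) ^ (inEdges c).card * prob c := by
  classical
  set E := (inEdges c).card with hE
  set a : ℝ := t ^ 3 * ((1 - t) * ((1 - t) ^ (3 * dim c) * (1 - t ^ 3) ^ d) ^ 3) with ha
  set b : ℝ := t ^ 6 * (d + 2 * dim c * (1 / t) ^ 2 + (1 / t) ^ 3) with hb
  have ht : 0 ≤ 1 - t := by linarith
  have ht3 : 0 ≤ 1 - t ^ 3 := by
    have : t ^ 3 ≤ 1 := pow_le_one₀ h0.le h1
    linarith
  have ha0 : 0 ≤ a := by positivity
  have hb0 : 0 ≤ b := by positivity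
  let X : Finset (Edge d) → ℝ := fun S => ∑ J ∈ niceSet c, (if Ev c J S then 1 else 0)
  let Y : Finset (Edge d) → ℝ := fun S => if ∃ J ∈ niceSet c, Ev c J S then 1 else 0
  have hX0 : ∀ S, 0 ≤ X S := fun S => Finset.sum_nonneg fun J _ => ind_nonneg _
  have hXY : ∀ S, X S * Y S = X S := by
    intro S
    by_cases h : ∃ J ∈ niceSet c, Ev c J S
    · simp only [Y, if_pos h, mul_one]
    · have : X S = 0 := by
        apply Finset.sum_eq_zero
        intro J hJ
        rw [if_neg]
        exact fun h' => h ⟨J, hJ, h'⟩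
      rw [this, zero_mul]
  have hYY : ∀ S, Y S ^ 2 = Y S := by
    intro S
    simp only [Y]
    split_ifs <;> norm_num
  have hP : ∑ S : Finset (Edge d), wt t S * Y S ≤ prob c := by
    unfold prob
    refine le_average h0.le h1 _ _ fun σ m _ => ?_
    by_cases h : ∃ J ∈ niceSet c, Ev c J (firstSet σ m)
    · obtain ⟨J, hJ, hev⟩ := h
      simp only [Y]
      rw [if_pos ⟨J, hJ, hev⟩, if_pos (empty_of_Ev (mem_niceSet.1 hJ) hev)]
    · simp only [Y]
      rw [if_neg h]
      split_ifs
      · exact zero_le_one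
      · exact le_rfl
  have hCS : (∑ S : Finset (Edge d), wt t S * X S) ^ 2 ≤
      (∑ S : Finset (Edge d), wt t S * X S ^ 2) * ∑ S : Finset (Edge d), wt t S * Y S := by
    have h2 := Finset.sum_mul_sq_le_sq_mul_sq univ
      (fun S : Finset (Edge d) => Real.sqrt (wt t S) * X S)
      (fun S : Finset (Edge d) => Real.sqrt (wt t S) * Y S)
    have e1 : ∀ S : Finset (Edge d), Real.sqrt (wt t S) * X S * (Real.sqrt (wt t S) * Y S) =
        wt t S * X S := by
      intro S
      have := Real.mul_self_sqrt (wt_nonneg h0.le h1 S)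
      calc _ = (Real.sqrt (wt t S) * Real.sqrt (wt t S)) * (X S * Y S) := by ring
        _ = _ := by rw [this, hXY]
    have e2 : ∀ S : Finset (Edge d), (Real.sqrt (wt t S) * X S) ^ 2 = wt t S * X S ^ 2 := by
      intro S
      rw [mul_pow, Real.sq_sqrt (wt_nonneg h0.le h1 S)]
    have e3 : ∀ S : Finset (Edge d), (Real.sqrt (wt t S) * Y S) ^ 2 = wt t S * Y S := by
      intro S
      rw [mul_pow, Real.sq_sqrt (wt_nonneg h0.le h1 S), hYY]
    rw [Finset.sum_congr rfl fun S _ => e1 S, Finset.sum_congr rfl fun S _ => e2 S,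
      Finset.sum_congr rfl fun S _ => e3 S] at h2
    exact h2
  have hfirst : ((niceSet c).card : ℝ) * a ^ E ≤ ∑ S : Finset (Edge d), wt t S * X S := by
    have h2 : ∑ S : Finset (Edge d), wt t S * X S = ∑ J ∈ niceSet c, ∑ S : Finset (Edge d),
        wt t S * (if Ev c J S then 1 else 0) := by
      rw [sum_comm]
      exact Finset.sum_congr rfl fun S _ => by simp only [X]; rw [mul_sum]
    rw [h2, ← nsmul_eq_mul, ← sum_const]
    exact Finset.sum_le_sum fun J hJ => prob_Ev_ge (mem_niceSet.1 hJ) h0 h1
  have hsecond : ∑ S : Finset (Edge d), wt t S * X S ^ 2 ≤ ((niceSet c).card : ℝ) * b ^ E := by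
    have h2 : ∑ S : Finset (Edge d), wt t S * X S ^ 2 = ∑ J ∈ niceSet c, ∑ J' ∈ niceSet c,
        ∑ S : Finset (Edge d), wt t S *
          ((if Ev c J S then 1 else 0) * (if Ev c J' S then 1 else 0)) := by
      have h3 : ∀ S : Finset (Edge d), wt t S * X S ^ 2 = ∑ J ∈ niceSet c, ∑ J' ∈ niceSet c,
          wt t S * ((if Ev c J S then 1 else 0) * (if Ev c J' S then 1 else 0)) := by
        intro S
        simp only [X]
        rw [sq, Finset.sum_mul_sum, mul_sum]
        exact Finset.sum_congr rfl fun J _ => mul_sum _ _ _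
      rw [Finset.sum_congr rfl fun S _ => h3 S, sum_comm]
      exact Finset.sum_congr rfl fun J _ => sum_comm
    rw [h2, ← nsmul_eq_mul, ← sum_const]
    exact Finset.sum_le_sum fun J hJ => second_moment (mem_niceSet.1 hJ) h0 h1
  have hNge : ((d - 3 * dim c : ℕ) : ℝ) ^ E ≤ ((niceSet c).card : ℝ) := by
    rw [← Nat.cast_pow]
    exact Nat.cast_le.2 (card_niceSet_ge c)
  have hdpos : (0 : ℝ) < ((d - 3 * dim c : ℕ) : ℝ) := by
    have : 0 < d - 3 * dim c := by omega
    exact_mod_cast this
  have hN : (0 : ℝ) < ((niceSet c).card : ℝ) := lt_of_lt_of_le (pow_pos hdpos _) hNge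
  have hY0 : ∀ S, 0 ≤ Y S := by
    intro S
    simp only [Y]
    split_ifs
    · exact zero_le_one
    · exact le_rfl
  have hP0 : 0 ≤ ∑ S : Finset (Edge d), wt t S * Y S :=
    Finset.sum_nonneg fun S _ => mul_nonneg (wt_nonneg h0.le h1 S) (hY0 S)
  have h3 : (((niceSet c).card : ℝ) * a ^ E) ^ 2 ≤
      ((niceSet c).card : ℝ) * b ^ E * prob c :=
    calc (((niceSet c).card : ℝ) * a ^ E) ^ 2 ≤ (∑ S : Finset (Edge d), wt t S * X S) ^ 2 :=
          pow_le_pow_left₀ (by positivity) hfirst 2
      _ ≤ _ := hCS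
      _ ≤ (((niceSet c).card : ℝ) * b ^ E) * prob c :=
          mul_le_mul hsecond hP hP0 (by positivity)
  have h4 : ((niceSet c).card : ℝ) * a ^ (2 * E) ≤ b ^ E * prob c := by
    have : ((niceSet c).card : ℝ) * (((niceSet c).card : ℝ) * a ^ (2 * E)) ≤
        ((niceSet c).card : ℝ) * (b ^ E * prob c) := by
      calc _ = (((niceSet c).card : ℝ) * a ^ E) ^ 2 := by rw [mul_comm 2 E, pow_mul]; ring
        _ ≤ _ := h3
        _ = _ := by ring
    exact le_of_mul_le_mul_left this hN
  exact (mul_le_mul_of_nonneg_right hNge (by positivity)).trans h4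

end Pool.Agent.H97.Q2
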