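import Pool.Agent.H97.Q2.Cube
import Pool.Agent.H97.Q2.Mixture

/-!
# Upper bound for the probability that a given subcube is empty
-/

open Finset

namespace Pool.Agent.H97.Q2

variable {d : ℕ}

/-- The subcube `c` is empty in `G`. -/
def IsEmptyIn (c : Subcube d) (G : Finset (Edge d)) : Prop := ∀ e : Edge d, Within e.1 c → e ∉ G

/-- The probability that the subcube `c` is empty in the final graph. -/
noncomputable def prob (c : Subcube d) : ℝ := by
  classical exact
  (∑ σ : Fin (numEdges d) ≃ Edge d, (if IsEmptyIn c (finalGraph σ) then 1 else 0 : ℝ)) /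
    (Fintype.card (Fin (numEdges d) ≃ Edge d) : ℝ)

lemma expectedEmpty_eq (d k : ℕ) :
    expectedEmpty d k = ∑ c ∈ univ.filter (fun c : Subcube d => dim c = k), prob c := by
  classical
  unfold expectedEmpty prob
  rw [← Finset.sum_div, sum_comm]
  congr 1
  refine Finset.sum_congr rfl fun σ _ => ?_
  rw [← Finset.sum_filter, Finset.filter_filter, sum_const, nsmul_eq_mul, mul_one]
  unfold emptyCopies IsEmptyIn
  congr!

/-- The edges `e` of `c` such that for some direction `j` which is fixed in `c`, the three other
edges of the face spanned by `e` and `j` are in `S`. -/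
def dangerous (c : Subcube d) (S : Finset (Edge d)) : Finset (Edge d) :=
  (inEdges c).filter fun e => ∃ j, c j ≠ none ∧ triple e j ⊆ S

lemma dangerous_mono (c : Subcube d) {S T : Finset (Edge d)} (h : S ⊆ T) :
    dangerous c S ⊆ dangerous c T := by
  intro e he
  simp only [dangerous, mem_filter] at he ⊢
  obtain ⟨h1, j, hj, h2⟩ := he
  exact ⟨h1, j, hj, h2.trans h⟩

lemma update_within {e c : Subcube d} {j : Fin d} (h : Within e c) (hj : c j = none) :
    Within (Function.update e j none) c := by
  intro i hi
  have : i ≠ j := by rintro rfl; exact hi hj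
  rw [Function.update_of_ne this]
  exact h i hi

/-- If the subcube is empty, then all its early edges are dangerous. -/
lemma subset_dangerous {c : Subcube d} {σ : Fin (numEdges d) ≃ Edge d}
    (h : IsEmptyIn c (finalGraph σ)) (m : ℕ) :
    firstSet σ m ∩ inEdges c ⊆ dangerous c (firstSet σ m \ inEdges c) := by
  intro e he
  rw [mem_inter, mem_firstSet, mem_inEdges] at he
  obtain ⟨hpos, hin⟩ := he
  obtain ⟨j, hj, hall⟩ := exists_of_notMem_final (h e hin)
  simp only [dangerous, mem_filter, mem_inEdges]
  refine ⟨hin, j, ?_, ?_⟩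
  · intro hcj
    have h3 : (triple e j).Nonempty := by rw [← card_pos, card_triple hj]; norm_num
    obtain ⟨e', he'⟩ := h3
    exact h e' ((mem_triple.1 he').2.trans (update_within hin hcj)) (hall e' he').1
  · intro e' he'
    obtain ⟨h1, h2⟩ := hall e' he'
    rw [mem_sdiff, mem_firstSet, mem_inEdges]
    exact ⟨(Fin.lt_def.1 h2).trans hpos, fun hw => h e' hw h1⟩

lemma disjoint_triple {c : Subcube d} {i j j' : Fin d} {e e' : Edge d}
    (he : e ∈ dirEdges c i) (he' : e' ∈ dirEdges c i) (hne : e ≠ e') (hj : c j ≠ none)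
    (hj' : c j' ≠ none) : Disjoint (triple e j) (triple e' j') := by
  rw [Finset.disjoint_left]
  intro x hx hx'
  apply hne
  rw [mem_dirEdges] at he he'
  rw [mem_triple] at hx hx'
  apply Subtype.ext
  funext l
  by_cases hl : l = i
  · rw [hl, he.2, he'.2]
  · by_cases hc : c l = none
    · have hlj : l ≠ j := by rintro rfl; exact hj hc
      have hlj' : l ≠ j' := by rintro rfl; exact hj' hc
      have h1 : e.1 l ≠ none := fun h => hl (edge_dir_unique e he.2 h)
      have h2 : e'.1 l ≠ none := fun h => hl (edge_dir_unique e' he'.2 h)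
      have h3 := hx.2 l (by rw [Function.update_of_ne hlj]; exact h1)
      have h4 := hx'.2 l (by rw [Function.update_of_ne hlj']; exact h2)
      rw [Function.update_of_ne hlj] at h3
      rw [Function.update_of_ne hlj'] at h4
      rw [← h3, h4]
    · rw [he.1 l hc, he'.1 l hc]

/-- The probability that all edges of a set `R` of parallel edges are dangerous. -/
lemma sum_wt_dangerous {t : ℝ} (h0 : 0 ≤ t) (h1 : t ≤ 1) (c : Subcube d) (i : Fin d)
    {R : Finset (Edge d)} (hR : R ⊆ dirEdges c i) :
    ∑ S : Finset (Edge d), wt t S * (if R ⊆ dangerous c S then 1 else 0) ≤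
      ((d : ℝ) * t ^ 3) ^ R.card := by
  classical
  let Kc : Finset (Fin d) := univ.filter fun j => c j ≠ none
  let U : (R → Fin d) → Finset (Edge d) := fun J => univ.biUnion fun e : R => triple e.1 (J e)
  have hU : ∀ J ∈ Fintype.piFinset (fun _ : R => Kc), (U J).card = 3 * R.card := by
    intro J hJ
    rw [Fintype.mem_piFinset] at hJ
    have hJ' : ∀ e, c (J e) ≠ none := fun e => (mem_filter.1 (hJ e)).2
    rw [card_biUnion]
    · rw [Finset.sum_congr rfl (g := fun _ => 3)]
      · rw [sum_const, card_univ, Fintype.card_coe, smul_eq_mul, mul_comm]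
      · intro e _
        apply card_triple
        have he := mem_dirEdges.1 (hR e.2)
        rw [he.1 _ (hJ' e)]
        exact hJ' e
    · intro e _ e' _ hne
      exact disjoint_triple (hR e.2) (hR e'.2) (fun h => hne (Subtype.ext h)) (hJ' e) (hJ' e')
  have hle : ∀ S : Finset (Edge d), (if R ⊆ dangerous c S then (1 : ℝ) else 0) ≤
      ∑ J ∈ Fintype.piFinset (fun _ : R => Kc), (if U J ⊆ S then (1 : ℝ) else 0) := by
    intro S
    split_ifs with h
    · have hex : ∀ e : R, ∃ j, c j ≠ none ∧ triple e.1 j ⊆ S := fun e =>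
        (mem_filter.1 (h e.2)).2
      choose J hJ hJ' using hex
      have hJm : J ∈ Fintype.piFinset (fun _ : R => Kc) := by
        rw [Fintype.mem_piFinset]
        intro e
        simpa [Kc] using hJ e
      refine le_trans ?_ (Finset.single_le_sum (f := fun J => if U J ⊆ S then (1 : ℝ) else 0)
        (fun J _ => by positivity) hJm)
      have : U J ⊆ S := by
        intro x hx
        obtain ⟨e, _, hx⟩ := mem_biUnion.1 hx
        exact hJ' e hx
      simp [this]
    · exact Finset.sum_nonneg fun J _ => by positivity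
  calc ∑ S : Finset (Edge d), wt t S * (if R ⊆ dangerous c S then 1 else 0)
      ≤ ∑ S : Finset (Edge d), wt t S *
          ∑ J ∈ Fintype.piFinset (fun _ : R => Kc), (if U J ⊆ S then (1 : ℝ) else 0) :=
        Finset.sum_le_sum fun S _ => mul_le_mul_of_nonneg_left (hle S) (wt_nonneg h0 h1 S)
    _ = ∑ J ∈ Fintype.piFinset (fun _ : R => Kc), ∑ S : Finset (Edge d),
          wt t S * (if U J ⊆ S then (1 : ℝ) else 0) := by
        rw [sum_comm]
        exact Finset.sum_congr rfl fun S _ => by rw [mul_sum]
    _ = ∑ J ∈ Fintype.piFinset (fun _ : R => Kc), t ^ (3 * R.card) :=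
        Finset.sum_congr rfl fun J hJ => by rw [sum_wt_subset, hU J hJ]
    _ = (Kc.card : ℝ) ^ R.card * t ^ (3 * R.card) := by
        rw [sum_const, Fintype.card_piFinset, prod_const, card_univ, Fintype.card_coe,
          nsmul_eq_mul]
        push_cast; rfl
    _ ≤ (d : ℝ) ^ R.card * t ^ (3 * R.card) := by
        refine mul_le_mul_of_nonneg_right ?_ (pow_nonneg h0 _)
        refine pow_le_pow_left₀ (Nat.cast_nonneg _) ?_ _
        have := card_le_univ Kc
        rw [Fintype.card_fin] at this
        exact_mod_cast this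
    _ = ((d : ℝ) * t ^ 3) ^ R.card := by rw [mul_pow, pow_mul]

theorem prob_le {t : ℝ} (h0 : 0 ≤ t) (h1 : t ≤ 1) (c : Subcube d) {k : ℕ} (hc : dim c = k)
    (hk : 2 ≤ k) :
    prob c ≤ (1 - t) ^ (k * 2 ^ (k - 2)) + k * (4 * ((d : ℝ) * t ^ 3)) ^ (2 ^ (k - 2)) := by
  classical
  set m : ℕ := 2 ^ (k - 2) with hm
  have hm2 : 2 ^ (k - 1) = 2 * m := by
    rw [hm, ← pow_succ']; congr 1; omega
  have hstep1 : prob c ≤ ∑ S : Finset (Edge d), wt t S *
      (if S ∩ inEdges c ⊆ dangerous c (S \ inEdges c) then 1 else 0) := by
    unfold prob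
    refine average_le h0 h1 _ _ fun σ n _ => ?_
    by_cases h : IsEmptyIn c (finalGraph σ)
    · rw [if_pos h, if_pos (subset_dangerous h n)]
    · rw [if_neg h]; positivity
  have hpt : ∀ S : Finset (Edge d),
      (if S ∩ inEdges c ⊆ dangerous c (S \ inEdges c) then (1 : ℝ) else 0) ≤
      (if S ∩ inEdges c ⊆ dangerous c (S \ inEdges c) ∧
        k * m ≤ (inEdges c \ dangerous c (S \ inEdges c)).card then 1 else 0) +
      ∑ i ∈ free c, ∑ R ∈ powersetCard m (dirEdges c i), (if R ⊆ dangerous c S then 1 else 0) := by
    intro S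
    have hnn : (0 : ℝ) ≤ ∑ i ∈ free c, ∑ R ∈ powersetCard m (dirEdges c i),
        (if R ⊆ dangerous c S then 1 else 0) :=
      Finset.sum_nonneg fun i _ => Finset.sum_nonneg fun R _ => by positivity
    by_cases hA : S ∩ inEdges c ⊆ dangerous c (S \ inEdges c)
    · by_cases hr : k * m ≤ (inEdges c \ dangerous c (S \ inEdges c)).card
      · rw [if_pos hA, if_pos ⟨hA, hr⟩]; linarith
      · rw [if_pos hA, if_neg (fun h => hr h.2), zero_add]
        push Not at hr
        set D := dangerous c (S \ inEdges c) with hD
        have hDsub : D ⊆ inEdges c := filter_subset _ _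
        have hcardD : k * m < D.card := by
          have h2 := card_sdiff_add_card_inter (inEdges c) D
          rw [Finset.inter_eq_right.2 hDsub, card_inEdges, hc, hm2] at h2
          have : k * (2 * m) = k * m + k * m := by ring
          omega
        obtain ⟨i, hi, hi'⟩ : ∃ i ∈ free c, m < (D ∩ dirEdges c i).card := by
          by_contra hcon
          push Not at hcon
          have h3 : D = (free c).biUnion fun i => D ∩ dirEdges c i := by
            ext e
            simp only [mem_biUnion, mem_inter]
            constructor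
            · intro he
              have := hDsub he
              rw [inEdges_eq_biUnion, mem_biUnion] at this
              obtain ⟨i, hi, hi'⟩ := this
              exact ⟨i, hi, he, hi'⟩
            · rintro ⟨i, _, he, _⟩; exact he
          have h4 : D.card ≤ ∑ i ∈ free c, (D ∩ dirEdges c i).card := by
            conv_lhs => rw [h3]
            exact card_biUnion_le
          have h5 := h4.trans (Finset.sum_le_sum hcon)
          rw [sum_const, card_free, hc, smul_eq_mul] at h5
          omega
        obtain ⟨R, hRsub, hRcard⟩ := Finset.exists_subset_card_eq hi'.le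
        have hRm : R ∈ powersetCard m (dirEdges c i) := by
          rw [mem_powersetCard]
          exact ⟨hRsub.trans inter_subset_right, hRcard⟩
        have hRd : R ⊆ dangerous c S :=
          (hRsub.trans inter_subset_left).trans (dangerous_mono c sdiff_subset)
        calc (1 : ℝ) = (if R ⊆ dangerous c S then 1 else 0) := by rw [if_pos hRd]
          _ ≤ ∑ R ∈ powersetCard m (dirEdges c i), (if R ⊆ dangerous c S then (1 : ℝ) else 0) :=
            Finset.single_le_sum (f := fun R => if R ⊆ dangerous c S then (1 : ℝ) else 0)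
              (fun R _ => by positivity) hRm
          _ ≤ _ := Finset.single_le_sum
              (f := fun i => ∑ R ∈ powersetCard m (dirEdges c i),
                (if R ⊆ dangerous c S then (1 : ℝ) else 0))
              (fun i _ => Finset.sum_nonneg fun R _ => by positivity) hi
    · rw [if_neg hA, if_neg fun h => hA h.1]; linarith
  have hstep2 : ∑ S : Finset (Edge d), wt t S *
      (∑ i ∈ free c, ∑ R ∈ powersetCard m (dirEdges c i),
        (if R ⊆ dangerous c S then (1 : ℝ) else 0)) ≤
      k * (4 * ((d : ℝ) * t ^ 3)) ^ m := by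
    calc _ = ∑ i ∈ free c, ∑ R ∈ powersetCard m (dirEdges c i), ∑ S : Finset (Edge d), wt t S *
          (if R ⊆ dangerous c S then (1 : ℝ) else 0) := by
          rw [Finset.sum_congr rfl fun S _ => mul_sum _ _ _, sum_comm]
          refine Finset.sum_congr rfl fun i _ => ?_
          rw [Finset.sum_congr rfl fun S _ => mul_sum _ _ _, sum_comm]
      _ ≤ ∑ i ∈ free c, ∑ R ∈ powersetCard m (dirEdges c i), ((d : ℝ) * t ^ 3) ^ m := by
          refine Finset.sum_le_sum fun i _ => Finset.sum_le_sum fun R hR => ?_
          rw [mem_powersetCard] at hR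
          have := sum_wt_dangerous h0 h1 c i hR.1
          rwa [hR.2] at this
      _ ≤ ∑ i ∈ free c, (4 : ℝ) ^ m * ((d : ℝ) * t ^ 3) ^ m := by
          refine Finset.sum_le_sum fun i hi => ?_
          rw [sum_const, card_powersetCard, card_dirEdges (mem_free.1 hi), hc, hm2, nsmul_eq_mul]
          refine mul_le_mul_of_nonneg_right ?_ (by positivity)
          have : (2 * m).choose m ≤ 2 ^ (2 * m) := Nat.choose_le_two_pow _ _
          rw [pow_mul] at this
          exact_mod_cast this
      _ = k * (4 * ((d : ℝ) * t ^ 3)) ^ m := by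
          rw [sum_const, card_free, hc, nsmul_eq_mul, mul_pow 4]
  refine hstep1.trans ?_
  calc _ ≤ ∑ S : Finset (Edge d), wt t S *
        ((if S ∩ inEdges c ⊆ dangerous c (S \ inEdges c) ∧
        k * m ≤ (inEdges c \ dangerous c (S \ inEdges c)).card then 1 else 0) +
      ∑ i ∈ free c, ∑ R ∈ powersetCard m (dirEdges c i),
        (if R ⊆ dangerous c S then 1 else 0)) :=
        Finset.sum_le_sum fun S _ => mul_le_mul_of_nonneg_left (hpt S) (wt_nonneg h0 h1 S)
    _ ≤ _ := by
        rw [Finset.sum_congr rfl fun S _ => mul_add _ _ _, sum_add_distrib]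
        exact add_le_add (sum_wt_inside h0 h1 (inEdges c) (dangerous c) (k * m)) hstep2

end Pool.Agent.H97.Q2
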